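import Mathlib

set_option autoImplicit false

/-!
Lexicographically defined symmetric shifts: the automaton of the lengths of matched prefixes.
-/

namespace Pool.Agent.H34.QS

/-- `α` is a digit sequence with `M - α ≤ σ^n α ≤ α` for all `n`, and `M - α 0 < α 0`. -/
structure Adm (M : ℕ) (α : ℕ → ℕ) : Prop where
  le : ∀ n, α n ≤ M
  up : ∀ n j, (∀ i < j, α (n + i) = α i) → α (n + j) ≤ α j
  lo : ∀ n j, (∀ i < j, α (n + i) = M - α i) → M - α j ≤ α (n + j)
  pos : M - α 0 < α 0

/-- one step -/
def step (M : ℕ) (α : ℕ → ℕ) (q : ℕ × ℕ) (a : ℕ) : Option (ℕ × ℕ) :=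
  if a ≤ α q.1 ∧ a ≤ M ∧ M - a ≤ α q.2 then
    some (if a = α q.1 then q.1 + 1 else 0, if M - a = α q.2 then q.2 + 1 else 0)
  else none

/-- reading a word -/
def run (M : ℕ) (α : ℕ → ℕ) : ℕ × ℕ → List ℕ → Option (ℕ × ℕ)
  | q, [] => some q
  | q, a :: z => (step M α q a).bind fun q' => run M α q' z

/-- the length of the longest suffix of `α 0, ..., α (s - 1)` that is a prefix of the reflection -/
def tau (M : ℕ) (α : ℕ → ℕ) : ℕ → ℕ
  | 0 => 0
  | s + 1 => if α s = M - α (tau M α s) then tau M α s + 1 else 0

/-- the states that occur -/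
def st (M : ℕ) (α : ℕ → ℕ) (e : Bool) (s : ℕ) : ℕ × ℕ :=
  if e then (s, tau M α s) else (tau M α s, s)

variable {M : ℕ} {α : ℕ → ℕ}

@[simp] theorem run_nil (q : ℕ × ℕ) : run M α q [] = some q := rfl

theorem run_cons (q : ℕ × ℕ) (a : ℕ) (z : List ℕ) :
    run M α q (a :: z) = (step M α q a).bind fun q' => run M α q' z := rfl

theorem run_append (q : ℕ × ℕ) (u v : List ℕ) :
    run M α q (u ++ v) = (run M α q u).bind fun q' => run M α q' v := by
  induction u generalizing q with
  | nil => simp
  | cons a u ih =>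
    rw [List.cons_append, run_cons, run_cons]
    cases hs : step M α q a with
    | none => simp
    | some q' => simp [ih]

theorem run_append_some {q q' : ℕ × ℕ} {u v : List ℕ} (hh : run M α q (u ++ v) = some q') :
    ∃ q₁, run M α q u = some q₁ ∧ run M α q₁ v = some q' := by
  rw [run_append] at hh
  cases hq : run M α q u with
  | none => rw [hq] at hh; simp at hh
  | some q₁ => rw [hq] at hh; exact ⟨q₁, rfl, by simpa using hh⟩

theorem run_append_of {q q₁ q' : ℕ × ℕ} {u v : List ℕ} (h1 : run M α q u = some q₁)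
    (h2 : run M α q₁ v = some q') : run M α q (u ++ v) = some q' := by
  rw [run_append, h1]; simpa using h2

theorem run_cons_some {q q' : ℕ × ℕ} {a : ℕ} {v : List ℕ} (hh : run M α q (a :: v) = some q') :
    ∃ q₁, step M α q a = some q₁ ∧ run M α q₁ v = some q' := by
  rw [run_cons] at hh
  cases hq : step M α q a with
  | none => rw [hq] at hh; simp at hh
  | some q₁ => rw [hq] at hh; exact ⟨q₁, rfl, by simpa using hh⟩

theorem run_cons_of {q q₁ q' : ℕ × ℕ} {a : ℕ} {v : List ℕ} (h1 : step M α q a = some q₁)
    (h2 : run M α q₁ v = some q') : run M α q (a :: v) = some q' := by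
  rw [run_cons, h1]; simpa using h2

theorem run_single {q q' : ℕ × ℕ} {a : ℕ} (h1 : step M α q a = some q') :
    run M α q [a] = some q' := run_cons_of h1 rfl

theorem step_some {q q' : ℕ × ℕ} {a : ℕ} (hh : step M α q a = some q') :
    a ≤ α q.1 ∧ a ≤ M ∧ M - a ≤ α q.2 ∧ q'.1 = (if a = α q.1 then q.1 + 1 else 0) ∧
      q'.2 = (if M - a = α q.2 then q.2 + 1 else 0) := by
  unfold step at hh
  by_cases h1 : a ≤ α q.1 ∧ a ≤ M ∧ M - a ≤ α q.2
  · rw [if_pos h1, Option.some.injEq] at hh
    subst hh
    exact ⟨h1.1, h1.2.1, h1.2.2, rfl, rfl⟩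
  · rw [if_neg h1] at hh
    exact absurd hh (by simp)

theorem step_of {q : ℕ × ℕ} {a : ℕ} (h1 : a ≤ α q.1) (h2 : a ≤ M) (h3 : M - a ≤ α q.2) :
    step M α q a = some (if a = α q.1 then q.1 + 1 else 0, if M - a = α q.2 then q.2 + 1 else 0) := by
  unfold step
  rw [if_pos ⟨h1, h2, h3⟩]

theorem digit_le {q q' : ℕ × ℕ} {z : List ℕ} (hh : run M α q z = some q') : ∀ a ∈ z, a ≤ M := by
  induction z generalizing q with
  | nil => simp
  | cons b z ih =>
    obtain ⟨q₁, h1, h2⟩ := run_cons_some hh
    intro a ha
    rcases List.mem_cons.1 ha with rfl | ha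
    · exact (step_some h1).2.1
    · exact ih h2 a ha

/-! ### the function `tau` -/

theorem tau_zero : tau M α 0 = 0 := rfl

theorem tau_succ (s : ℕ) :
    tau M α (s + 1) = if α s = M - α (tau M α s) then tau M α s + 1 else 0 := rfl

theorem tau_lt (h : Adm M α) {s : ℕ} (hs : 0 < s) : tau M α s < s := by
  induction s with
  | zero => omega
  | succ s ih =>
    rw [tau_succ]
    rcases Nat.eq_zero_or_pos s with rfl | hs'
    · rw [tau_zero, if_neg (by have := h.pos; omega)]
      omega
    · have := ih hs'
      split_ifs <;> omega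

theorem tau_le (h : Adm M α) (s : ℕ) : tau M α s ≤ s := by
  rcases Nat.eq_zero_or_pos s with rfl | hs'
  · exact le_refl _
  · exact (tau_lt h hs').le

theorem tau_one (h : Adm M α) : tau M α 1 = 0 := by
  have := tau_lt h (s := 1) (by omega)
  omega

theorem tau_match (h : Adm M α) (s : ℕ) : ∀ i < tau M α s, α (s - tau M α s + i) = M - α i := by
  induction s with
  | zero => intro i hi; simp [tau_zero] at hi
  | succ s ih =>
    intro i hi
    rw [tau_succ] at hi ⊢
    split_ifs at hi ⊢ with h1
    · have h2 := tau_le h s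
      have h3 : s + 1 - (tau M α s + 1) + i = s - tau M α s + i := by omega
      rw [h3]
      rcases Nat.lt_succ_iff_lt_or_eq.1 hi with h4 | h4
      · exact ih i h4
      · rw [h4, Nat.sub_add_cancel h2, h1]
    · omega

theorem dead (h : Adm M α) (s : ℕ) : M - α (tau M α s) ≤ α s := by
  have h1 := h.lo (s - tau M α s) (tau M α s) (tau_match h s)
  rwa [Nat.sub_add_cancel (tau_le h s)] at h1

theorem tau_tau (h : Adm M α) {s : ℕ} (hs : M - α (tau M α s) < α s) :
    tau M α (tau M α s + 1) = 0 := by
  rw [tau_succ]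
  split_ifs with h1
  · exfalso
    set t := tau M α s with ht
    set r := tau M α t with hr
    have hrt : r ≤ t := tau_le h t
    have hts : t ≤ s := tau_le h s
    have h2 : ∀ i < r, α (s - r + i) = α i := by
      intro i hi
      have h3 := tau_match h t i hi
      have h4 := tau_match h s (t - r + i) (by omega)
      have h5 : s - t + (t - r + i) = s - r + i := by omega
      rw [← ht, h5] at h4
      rw [← hr] at h3
      rw [h4, h3]
      have := h.le i
      omega
    have h6 := h.up (s - r) r h2
    rw [Nat.sub_add_cancel (by omega)] at h6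
    have h7 := h.le r
    have h8 := h.le t
    omega
  · rfl

/-! ### matched prefixes -/

/-- the word `α 0 ... α (j - 1)` -/
def pre (α : ℕ → ℕ) (j : ℕ) : List ℕ := (List.range j).map α

/-- the reflected word -/
def bpre (M : ℕ) (α : ℕ → ℕ) (j : ℕ) : List ℕ := (List.range j).map fun i => M - α i

theorem pre_succ (j : ℕ) : pre α (j + 1) = pre α j ++ [α j] := by
  unfold pre; rw [List.range_succ]; simp

theorem bpre_succ (j : ℕ) : bpre M α (j + 1) = bpre M α j ++ [M - α j] := by
  unfold bpre; rw [List.range_succ]; simp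

@[simp] theorem length_pre (j : ℕ) : (pre α j).length = j := by simp [pre]
@[simp] theorem length_bpre (j : ℕ) : (bpre M α j).length = j := by simp [bpre]

/-- `α 0 ... α (k - 1)` is a suffix of `α 0 ... α (m - 1)` -/
def Ov (α : ℕ → ℕ) (m k : ℕ) : Prop := k ≤ m ∧ ∀ i < k, α (m - k + i) = α i

theorem ov_zero (m : ℕ) : Ov α m 0 := ⟨Nat.zero_le _, by intro i hi; omega⟩

theorem ov_refl (m : ℕ) : Ov α m m := ⟨le_refl _, by intro i _; simp⟩

theorem ov_le (h : Adm M α) {m k : ℕ} (ho : Ov α m k) : α m ≤ α k := by
  have := h.up (m - k) k ho.2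
  rwa [Nat.sub_add_cancel ho.1] at this

theorem ov_succ {m k : ℕ} (ho : Ov α m k) (he : α m = α k) : Ov α (m + 1) (k + 1) := by
  refine ⟨by have := ho.1; omega, ?_⟩
  intro i hi
  have h0 : m + 1 - (k + 1) + i = m - k + i := by omega
  rw [h0]
  rcases Nat.lt_succ_iff_lt_or_eq.1 hi with h4 | h4
  · exact ho.2 i h4
  · rw [h4, Nat.sub_add_cancel ho.1, he]

theorem ov_tau (h : Adm M α) (s : ℕ) : Ov α s (tau M α (tau M α s)) := by
  set t := tau M α s with ht
  set r := tau M α t with hr
  have hrt : r ≤ t := tau_le h t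
  have hts : t ≤ s := tau_le h s
  refine ⟨by omega, ?_⟩
  intro i hi
  have h3 := tau_match h t i hi
  have h4 := tau_match h s (t - r + i) (by omega)
  have h5 : s - t + (t - r + i) = s - r + i := by omega
  rw [← ht, h5] at h4
  rw [← hr] at h3
  rw [h4, h3]
  have := h.le i
  omega

/-- weakening -/
theorem step_weak (h : Adm M α) {q r q' : ℕ × ℕ} {a : ℕ} (h1 : Ov α q.1 r.1) (h2 : Ov α q.2 r.2)
    (hq : step M α q a = some q') :
    ∃ r', step M α r a = some r' ∧ Ov α q'.1 r'.1 ∧ Ov α q'.2 r'.2 := by
  obtain ⟨a1, a2, a3, a4, a5⟩ := step_some hq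
  have b1 := ov_le h h1
  have b2 := ov_le h h2
  refine ⟨_, step_of (a1.trans b1) a2 (a3.trans b2), ?_, ?_⟩
  · rw [a4]
    dsimp only
    by_cases c : a = α q.1
    · by_cases d : a = α r.1
      · rw [if_pos c, if_pos d]
        exact ov_succ h1 (by rw [← c, ← d])
      · rw [if_neg d]; exact ov_zero _
    · have d : a ≠ α r.1 := by omega
      rw [if_neg c, if_neg d]; exact ov_zero _
  · rw [a5]
    dsimp only
    by_cases c : M - a = α q.2
    · by_cases d : M - a = α r.2
      · rw [if_pos c, if_pos d]
        exact ov_succ h2 (by rw [← c, ← d])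
      · rw [if_neg d]; exact ov_zero _
    · have d : M - a ≠ α r.2 := by omega
      rw [if_neg c, if_neg d]; exact ov_zero _

theorem run_weak (h : Adm M α) {z : List ℕ} {q r q' : ℕ × ℕ} (h1 : Ov α q.1 r.1)
    (h2 : Ov α q.2 r.2) (hq : run M α q z = some q') :
    ∃ r', run M α r z = some r' ∧ Ov α q'.1 r'.1 ∧ Ov α q'.2 r'.2 := by
  induction z generalizing q r with
  | nil =>
    rw [run_nil, Option.some.injEq] at hq
    subst hq
    exact ⟨r, rfl, h1, h2⟩
  | cons a z ih =>
    obtain ⟨q₁, b1, b2⟩ := run_cons_some hq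
    obtain ⟨r₁, c1, c2, c3⟩ := step_weak h h1 h2 b1
    obtain ⟨r', d1, d2⟩ := ih c2 c3 b2
    exact ⟨r', run_cons_of c1 d1, d2⟩

/-! ### symmetry -/

theorem step_swap {q q' : ℕ × ℕ} {a : ℕ} (hq : step M α q a = some q') :
    step M α q.swap (M - a) = some q'.swap := by
  obtain ⟨a1, a2, a3, a4, a5⟩ := step_some hq
  have e : M - (M - a) = a := by omega
  rw [step_of (by simpa using a3) (by omega) (by rw [e]; simpa using a1)]
  congr 1
  ext
  · simp only [Prod.fst_swap, Prod.snd_swap]; rw [a5]
  · simp only [Prod.fst_swap, Prod.snd_swap]; rw [a4, e]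

/-- reflection of words -/
def refl (M : ℕ) (z : List ℕ) : List ℕ := z.map fun a => M - a

theorem run_swap {z : List ℕ} {q q' : ℕ × ℕ} (hq : run M α q z = some q') :
    run M α q.swap (refl M z) = some q'.swap := by
  induction z generalizing q with
  | nil =>
    rw [run_nil, Option.some.injEq] at hq
    subst hq; rfl
  | cons a z ih =>
    obtain ⟨q₁, b1, b2⟩ := run_cons_some hq
    exact run_cons_of (step_swap b1) (ih b2)

theorem refl_refl {z : List ℕ} (hz : ∀ a ∈ z, a ≤ M) : refl M (refl M z) = z := by
  unfold refl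
  rw [List.map_map]
  conv_rhs => rw [← List.map_id z]
  apply List.map_congr_left
  intro a ha
  have := hz a ha
  simp only [Function.comp_apply, id]
  omega

theorem refl_append (u v : List ℕ) : refl M (u ++ v) = refl M u ++ refl M v := by simp [refl]

theorem length_refl (u : List ℕ) : (refl M u).length = u.length := by simp [refl]

theorem refl_pre (j : ℕ) : refl M (pre α j) = bpre M α j := by
  unfold refl pre bpre; rw [List.map_map]; rfl

theorem refl_bpre (h : Adm M α) (j : ℕ) : refl M (bpre M α j) = pre α j := by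
  rw [← refl_pre, refl_refl]
  intro a ha
  unfold pre at ha
  rw [List.mem_map] at ha
  obtain ⟨i, _, rfl⟩ := ha
  exact h.le i

theorem st_swap (e : Bool) (s : ℕ) : (st M α e s).swap = st M α (!e) s := by
  cases e <;> simp [st]

/-! ### invariants -/

theorem step_inv (h : Adm M α) {e : Bool} {s : ℕ} {q' : ℕ × ℕ} {a : ℕ}
    (hq : step M α (st M α e s) a = some q') : ∃ e' s', q' = st M α e' s' := by
  have key : ∀ {s : ℕ} {q' : ℕ × ℕ} {a : ℕ}, step M α (st M α true s) a = some q' →
      ∃ e' s', q' = st M α e' s' := by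
    intro s q' a hq
    obtain ⟨a1, a2, a3, a4, a5⟩ := step_some hq
    have b1 := h.le s
    have b2 := h.le (tau M α s)
    simp only [st, if_true] at a1 a3 a4 a5
    by_cases c : a = α s
    · refine ⟨true, s + 1, ?_⟩
      ext
      · rw [a4, if_pos c]; rfl
      · rw [a5]
        simp only [st, if_true]
        rw [tau_succ]
        congr 1
        rw [c]
        apply propext
        constructor <;> intro _ <;> omega
    · rw [if_neg c] at a4
      by_cases d : M - a = α (tau M α s)
      · rw [if_pos d] at a5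
        refine ⟨false, tau M α s + 1, ?_⟩
        ext
        · rw [a4]
          simp only [st, Bool.false_eq_true, if_false]
          rw [tau_tau h (by omega)]
        · rw [a5]; simp [st]
      · rw [if_neg d] at a5
        refine ⟨true, 0, ?_⟩
        ext
        · rw [a4]; simp [st]
        · rw [a5]; simp [st, tau_zero]
  cases e with
  | true => exact key hq
  | false =>
    have h1 := step_swap hq
    rw [st_swap] at h1
    obtain ⟨e', s', h2⟩ := key h1
    refine ⟨!e', s', ?_⟩
    rw [← st_swap, ← h2, Prod.swap_swap]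

theorem run_inv (h : Adm M α) {z : List ℕ} {e : Bool} {s : ℕ} {q' : ℕ × ℕ}
    (hq : run M α (st M α e s) z = some q') : ∃ e' s', q' = st M α e' s' := by
  induction z generalizing e s with
  | nil =>
    rw [run_nil, Option.some.injEq] at hq
    exact ⟨e, s, hq.symm⟩
  | cons a z ih =>
    obtain ⟨q₁, b1, b2⟩ := run_cons_some hq
    obtain ⟨e', s', rfl⟩ := step_inv h b1
    exact ih b2

theorem st_zero (e : Bool) : st M α e 0 = (0, 0) := by cases e <;> simp [st, tau_zero]

/-- the matched prefix is at least as long as any prefix of `α` just read -/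
theorem run_pre (h : Adm M α) {j : ℕ} {q q' : ℕ × ℕ} (hq : run M α q (pre α j) = some q') :
    Ov α q'.1 j := by
  induction j generalizing q' with
  | zero => exact ov_zero _
  | succ j ih =>
    rw [pre_succ] at hq
    obtain ⟨q₁, b1, b2⟩ := run_append_some hq
    obtain ⟨q₂, b3, b4⟩ := run_cons_some b2
    rw [run_nil, Option.some.injEq] at b4
    subst b4
    obtain ⟨a1, a2, a3, a4, a5⟩ := step_some b3
    have c1 := ih b1
    have c2 := ov_le h c1
    have c3 : α j = α q₁.1 := le_antisymm a1 c2
    rw [a4, if_pos c3]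
    exact ov_succ c1 c3.symm

theorem run_bpre (h : Adm M α) {j : ℕ} {q q' : ℕ × ℕ} (hq : run M α q (bpre M α j) = some q') :
    Ov α q'.2 j := by
  have h1 := run_swap hq
  rw [refl_bpre h] at h1
  exact run_pre h h1

/-- the main match can always be continued -/
theorem step_main (h : Adm M α) (s : ℕ) :
    step M α (st M α true s) (α s) = some (st M α true (s + 1)) := by
  have b1 := h.le s
  have b2 := h.le (tau M α s)
  have b3 := dead h s
  rw [step_of (by simp [st]) b1 (by simp only [st, if_true]; omega)]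
  congr 1
  ext
  · simp [st]
  · simp only [st, if_true]
    rw [tau_succ]
    congr 1
    apply propext
    constructor <;> intro _ <;> omega

theorem step_main' (h : Adm M α) (s : ℕ) :
    step M α (st M α false s) (M - α s) = some (st M α false (s + 1)) := by
  have h1 := step_swap (step_main h s)
  rwa [st_swap, st_swap] at h1

/-- leaving the main match for the other one -/
theorem step_flip (h : Adm M α) {s : ℕ} (hs : M - α (tau M α s) < α s) :
    step M α (st M α true s) (M - α (tau M α s)) = some (st M α false (tau M α s + 1)) := by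
  have b1 := h.le s
  have b2 := h.le (tau M α s)
  rw [step_of (by simp only [st, if_true]; omega) (by omega) (by simp only [st, if_true]; omega)]
  congr 1
  ext
  · simp only [st, if_true, Bool.false_eq_true, if_false]
    rw [if_neg (by omega), tau_tau h hs]
  · simp only [st, if_true, Bool.false_eq_true, if_false]
    rw [if_pos (by omega)]

end Pool.Agent.H34.QS
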