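import Mathlib

set_option autoImplicit false

/-!
Weights of languages: `wt x L` is the sum of `x ^ |z|` over the words `z` of `L`.
-/

open scoped ENNReal

namespace Pool.Agent.H34.QS

/-- the weight of a language -/
noncomputable def wt (x : ℝ≥0∞) (L : Language ℕ) : ℝ≥0∞ := ∑' z : {z // z ∈ L}, x ^ z.1.length

variable {x : ℝ≥0∞}

theorem wt_mono {L K : Language ℕ} (h : ∀ z, z ∈ L → z ∈ K) : wt x L ≤ wt x K := by
  unfold wt
  exact ENNReal.tsum_comp_le_tsum_of_injective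
    (f := fun z : {z // z ∈ L} => (⟨z.1, h z.1 z.2⟩ : {z // z ∈ K}))
    (fun a b hab => Subtype.ext (by simpa using hab)) (fun z : {z // z ∈ K} => x ^ z.1.length)

theorem wt_one : wt x 1 = 1 := by
  unfold wt
  rw [tsum_eq_single ⟨[], by rw [Language.mem_one]⟩]
  · simp
  · rintro ⟨z, hz⟩ hne
    exfalso
    apply hne
    rw [Language.mem_one] at hz
    exact Subtype.ext hz

theorem wt_mul_le (L K : Language ℕ) : wt x (L * K) ≤ wt x L * wt x K := by
  have h1 : wt x L * wt x K =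
      ∑' p : {z // z ∈ L} × {z // z ∈ K}, x ^ p.1.1.length * x ^ p.2.1.length := by
    rw [ENNReal.tsum_prod']
    unfold wt
    simp_rw [ENNReal.tsum_mul_left]
    rw [ENNReal.tsum_mul_right]
  rw [h1]
  unfold wt
  have h2 := ENNReal.tsum_le_tsum_comp_of_surjective
    (f := fun p : {z // z ∈ L} × {z // z ∈ K} =>
      (⟨p.1.1 ++ p.2.1, Language.mem_mul.2 ⟨_, p.1.2, _, p.2.2, rfl⟩⟩ : {z // z ∈ L * K}))
    (by
      rintro ⟨z, hz⟩
      obtain ⟨a, ha, b, hb, hab⟩ := Language.mem_mul.1 hz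
      exact ⟨(⟨a, ha⟩, ⟨b, hb⟩), Subtype.ext hab⟩)
    (fun z => x ^ z.1.length)
  refine h2.trans (le_of_eq ?_)
  congr 1
  funext p
  rw [List.length_append, pow_add]

theorem wt_mul_eq (L K : Language ℕ)
    (hu : ∀ a ∈ L, ∀ b ∈ K, ∀ a' ∈ L, ∀ b' ∈ K, a ++ b = a' ++ b' → a = a') :
    wt x (L * K) = wt x L * wt x K := by
  refine le_antisymm (wt_mul_le L K) ?_
  have h1 : wt x L * wt x K =
      ∑' p : {z // z ∈ L} × {z // z ∈ K}, x ^ p.1.1.length * x ^ p.2.1.length := by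
    rw [ENNReal.tsum_prod']
    unfold wt
    simp_rw [ENNReal.tsum_mul_left]
    rw [ENNReal.tsum_mul_right]
  rw [h1]
  unfold wt
  have h2 := ENNReal.tsum_comp_le_tsum_of_injective
    (f := fun p : {z // z ∈ L} × {z // z ∈ K} =>
      (⟨p.1.1 ++ p.2.1, Language.mem_mul.2 ⟨_, p.1.2, _, p.2.2, rfl⟩⟩ : {z // z ∈ L * K}))
    (by
      rintro ⟨⟨a, ha⟩, ⟨b, hb⟩⟩ ⟨⟨a', ha'⟩, ⟨b', hb'⟩⟩ hab
      rw [Subtype.mk.injEq] at hab
      dsimp only at hab
      have e1 := hu a ha b hb a' ha' b' hb' hab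
      subst e1
      have e2 := List.append_cancel_left hab
      subst e2
      rfl)
    (fun z => x ^ z.1.length)
  refine le_trans (le_of_eq ?_) h2
  congr 1
  funext p
  rw [List.length_append, pow_add]

theorem wt_pow_le (L : Language ℕ) (m : ℕ) : wt x (L ^ m) ≤ wt x L ^ m := by
  induction m with
  | zero => rw [pow_zero, pow_zero, wt_one]
  | succ m ih =>
    rw [pow_succ', pow_succ']
    exact (wt_mul_le _ _).trans (mul_le_mul_right ih _)

/-- a finite set of words of length `n` in `L` -/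
theorem card_mul_le {L : Language ℕ} {n : ℕ} {S : Finset (List ℕ)}
    (h : ∀ z ∈ S, z ∈ L ∧ z.length = n) : (S.card : ℝ≥0∞) * x ^ n ≤ wt x L := by
  have h1 : (S.card : ℝ≥0∞) * x ^ n = ∑ z ∈ S.attach, x ^ z.1.length := by
    rw [Finset.sum_congr rfl (g := fun _ => x ^ n)]
    · rw [Finset.sum_const, Finset.card_attach, nsmul_eq_mul]
    · intro z _
      rw [(h z.1 z.2).2]
  rw [h1]
  unfold wt
  have h2 : ∑ z ∈ S.attach, x ^ z.1.length =
      ∑ z ∈ S.attach.map ⟨fun z => (⟨z.1, (h z.1 z.2).1⟩ : {z // z ∈ L}),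
        fun a b hab => Subtype.ext (by simpa using hab)⟩, x ^ z.1.length := by
    rw [Finset.sum_map]
    rfl
  rw [h2]
  exact ENNReal.sum_le_tsum _

theorem wt_union_le (L K : Language ℕ) : wt x (L + K) ≤ wt x L + wt x K := by
  unfold wt
  exact ENNReal.tsum_union_le (fun z : List ℕ => x ^ z.length) L K

/-- the weight of a language with at most one word of each length -/
theorem wt_of_length_inj {L : Language ℕ} (h : ∀ a ∈ L, ∀ b ∈ L, a.length = b.length → a = b) :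
    wt x L ≤ (1 - x)⁻¹ := by
  rw [← ENNReal.tsum_geometric]
  unfold wt
  exact ENNReal.tsum_comp_le_tsum_of_injective (f := fun z : {z // z ∈ L} => z.1.length)
    (fun a b hab => Subtype.ext (h a.1 a.2 b.1 b.2 hab)) (fun n => x ^ n)

theorem wt_finite {L : Language ℕ} (h : Set.Finite (L : Set (List ℕ))) (hx : x < ∞) :
    wt x L < ∞ := by
  unfold wt
  haveI : Fintype {z // z ∈ L} := h.fintype
  rw [tsum_fintype]
  exact ENNReal.sum_lt_top.2 (fun z _ => ENNReal.pow_lt_top hx)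

/-- words longer than `k` -/
theorem wt_long {L : Language ℕ} {x y : ℝ≥0∞} {k : ℕ} {c : ℝ≥0∞} (hc : x ≤ c * y) (hc1 : c ≤ 1)
    (h : ∀ z ∈ L, k ≤ z.length) : wt x L ≤ c ^ k * wt y L := by
  unfold wt
  rw [← ENNReal.tsum_mul_left]
  apply ENNReal.tsum_le_tsum
  intro z
  calc x ^ z.1.length ≤ (c * y) ^ z.1.length := pow_le_pow_left₀ (by simp) hc _
    _ = c ^ z.1.length * y ^ z.1.length := mul_pow _ _ _
    _ ≤ c ^ k * y ^ z.1.length :=
        mul_le_mul_left (pow_le_pow_of_le_one (by simp) hc1 (h z.1 z.2)) _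

end Pool.Agent.H34.QS
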