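import Pool.Agent.H34.Str
import Pool.Agent.H34.Wt

set_option autoImplicit false

open scoped ENNReal

namespace Pool.Agent.H34.QS

variable {M : ℕ} {α : ℕ → ℕ}

/-- the words that can be read from `q` -/
def Rdl (M : ℕ) (α : ℕ → ℕ) (q : ℕ × ℕ) : Language ℕ := {z | ∃ q', run M α q z = some q'}

/-- the closed words at `p` -/
def Closed (M : ℕ) (α : ℕ → ℕ) (p : ℕ × ℕ) : Language ℕ := {z | run M α p z = some p}

/-- the first return words at `p` -/
def Ret (M : ℕ) (α : ℕ → ℕ) (p : ℕ × ℕ) : Language ℕ :=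
  {z | z ≠ [] ∧ run M α p z = some p ∧
    ∀ u v, z = u ++ v → u ≠ [] → v ≠ [] → run M α p u ≠ some p}

theorem mem_rdl {q : ℕ × ℕ} {z : List ℕ} : z ∈ Rdl M α q ↔ ∃ q', run M α q z = some q' := Iff.rfl

theorem mem_closed {p : ℕ × ℕ} {z : List ℕ} : z ∈ Closed M α p ↔ run M α p z = some p := Iff.rfl

theorem mem_ret {p : ℕ × ℕ} {z : List ℕ} : z ∈ Ret M α p ↔ z ≠ [] ∧ run M α p z = some p ∧
    ∀ u v, z = u ++ v → u ≠ [] → v ≠ [] → run M α p u ≠ some p := Iff.rfl

theorem ret_pow_closed (p : ℕ × ℕ) (m : ℕ) {z : List ℕ} (hz : z ∈ Ret M α p ^ m) :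
    z ∈ Closed M α p := by
  induction m generalizing z with
  | zero =>
    rw [pow_zero, Language.mem_one] at hz
    rw [hz]; exact rfl
  | succ m ih =>
    rw [pow_succ', Language.mem_mul] at hz
    obtain ⟨a, ha, b, hb, rfl⟩ := hz
    exact run_append_of ha.2.1 (ih hb)

theorem ret_unique (p : ℕ × ℕ) {a b a' b' : List ℕ} (ha : a ∈ Ret M α p) (ha' : a' ∈ Ret M α p)
    (hab : a ++ b = a' ++ b') : a = a' := by
  rcases List.append_eq_append_iff.1 hab with ⟨c, hc, -⟩ | ⟨c, hc, -⟩
  · by_cases h : c = []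
    · rw [hc, h, List.append_nil]
    · exact absurd ha.2.1 (ha'.2.2 a c hc ha.1 h)
  · by_cases h : c = []
    · rw [hc, h, List.append_nil]
    · exact absurd ha'.2.1 (ha.2.2 a' c hc ha'.1 h)

theorem wt_ret_pow {x : ℝ≥0∞} (p : ℕ × ℕ) (m : ℕ) :
    wt x (Ret M α p ^ m) = wt x (Ret M α p) ^ m := by
  induction m with
  | zero => rw [pow_zero, pow_zero, wt_one]
  | succ m ih =>
    rw [pow_succ', pow_succ', wt_mul_eq, ih]
    intro a ha b _ a' ha' b' _ hab
    exact ret_unique p ha ha' hab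

theorem wt_ret_le {x : ℝ≥0∞} {p : ℕ × ℕ} (hf : wt x (Closed M α p) < ∞) :
    wt x (Ret M α p) ≤ 1 := by
  by_contra hc
  rw [not_le] at hc
  have h1 := ENNReal.tendsto_pow_atTop_nhds_top_iff.2 hc
  have h2 : ∀ m, wt x (Ret M α p) ^ m ≤ wt x (Closed M α p) := by
    intro m
    rw [← wt_ret_pow]
    exact wt_mono (fun z hz => ret_pow_closed p m hz)
  have h3 := le_of_tendsto' h1 h2
  exact absurd hf (not_lt.2 h3)

theorem wt_prefix {x : ℝ≥0∞} {L K : Language ℕ} (u : List ℕ) (h : ∀ z ∈ K, u ++ z ∈ L) :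
    x ^ u.length * wt x K ≤ wt x L := by
  unfold wt
  rw [← ENNReal.tsum_mul_left]
  have h2 := ENNReal.tsum_comp_le_tsum_of_injective
    (f := fun z : {z // z ∈ K} => (⟨u ++ z.1, h z.1 z.2⟩ : {z // z ∈ L}))
    (fun a b hab => Subtype.ext (by simpa using hab)) (fun z : {z // z ∈ L} => x ^ z.1.length)
  refine le_trans (le_of_eq ?_) h2
  congr 1
  funext z
  rw [List.length_append, pow_add]

theorem finite_of_prefix {x : ℝ≥0∞} (hx : x ≠ 0) {L K : Language ℕ} (u : List ℕ)
    (h : ∀ z ∈ K, u ++ z ∈ L) (hL : wt x L < ∞) : wt x K < ∞ := by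
  have h1 := wt_prefix (x := x) u h
  by_contra hc
  rw [not_lt, top_le_iff] at hc
  rw [hc, ENNReal.mul_top (pow_ne_zero _ hx), top_le_iff] at h1
  rw [h1] at hL
  exact lt_irrefl _ hL

/-! ### visits -/

/-- the number of visits (after time `0`) of states with the property `P` -/
def cnt (M : ℕ) (α : ℕ → ℕ) (P : ℕ × ℕ → Bool) : ℕ × ℕ → List ℕ → ℕ
  | _, [] => 0
  | q, a :: z =>
    match step M α q a with
    | none => 0
    | some q₁ => (if P q₁ then 1 else 0) + cnt M α P q₁ z

theorem cnt_nil (P : ℕ × ℕ → Bool) (q : ℕ × ℕ) : cnt M α P q [] = 0 := rfl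

theorem cnt_cons {P : ℕ × ℕ → Bool} {q q₁ : ℕ × ℕ} {a : ℕ} {z : List ℕ}
    (h : step M α q a = some q₁) :
    cnt M α P q (a :: z) = (if P q₁ then 1 else 0) + cnt M α P q₁ z := by
  rw [cnt, h]

theorem cnt_first {p : ℕ × ℕ} {k : ℕ} :
    ∀ {z : List ℕ} {q q' : ℕ × ℕ}, run M α q z = some q' →
      cnt M α (fun r => r == p) q z = k + 1 →
      ∃ u v, z = u ++ v ∧ u ≠ [] ∧ run M α q u = some p ∧
        (∀ u' v', u = u' ++ v' → u' ≠ [] → v' ≠ [] → run M α q u' ≠ some p) ∧
        cnt M α (fun r => r == p) p v = k ∧ run M α p v = some q' := by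
  intro z
  induction z with
  | nil => intro q q' _ hc; rw [cnt_nil] at hc; omega
  | cons a z ih =>
    intro q q' hrun hc
    obtain ⟨q₁, b1, b2⟩ := run_cons_some hrun
    rw [cnt_cons b1] at hc
    by_cases hq : q₁ = p
    · subst hq
      refine ⟨[a], z, rfl, by simp, run_single b1, ?_, ?_, b2⟩
      · intro u' v' huv hu' hv'
        exfalso
        have := congrArg List.length huv
        rw [List.length_append, List.length_singleton] at this
        have h1 := List.length_pos_of_ne_nil hu'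
        have h2 := List.length_pos_of_ne_nil hv'
        omega
      · simp only [beq_self_eq_true, if_true] at hc
        omega
    · have hb : (q₁ == p) = false := by simpa using hq
      rw [hb] at hc
      simp only [Bool.false_eq_true, if_false, Nat.zero_add] at hc
      obtain ⟨u, v, rfl, hu, h1, h2, h3, h4⟩ := ih b2 hc
      refine ⟨a :: u, v, rfl, by simp, run_cons_of b1 h1, ?_, h3, h4⟩
      intro u' v' huv hu' hv' hrun'
      cases u' with
      | nil => exact hu' rfl
      | cons a' u' =>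
        rw [List.cons_append, List.cons.injEq] at huv
        obtain ⟨rfl, huv⟩ := huv
        obtain ⟨q₂, c1, c2⟩ := run_cons_some hrun'
        rw [b1, Option.some.injEq] at c1
        subst c1
        cases u' with
        | nil =>
          rw [run_nil, Option.some.injEq] at c2
          exact hq c2
        | cons b u' => exact h2 _ _ huv (by simp) hv' c2

theorem cnt_returns {p : ℕ × ℕ} : ∀ (m : ℕ) {k : ℕ} {z : List ℕ} {q' : ℕ × ℕ},
    run M α p z = some q' → cnt M α (fun r => r == p) p z = k + m →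
    ∃ u v, z = u ++ v ∧ u ∈ Ret M α p ^ m ∧ run M α p v = some q' ∧
      cnt M α (fun r => r == p) p v = k := by
  intro m
  induction m with
  | zero =>
    intro k z q' h1 h2
    exact ⟨[], z, rfl, by rw [pow_zero, Language.mem_one], h1, h2⟩
  | succ m ih =>
    intro k z q' h1 h2
    obtain ⟨u, v, rfl, a1, a2, a3, a4, a5⟩ := cnt_first (k := k + m) h1 (by omega)
    obtain ⟨u', v', rfl, b1, b2, b3⟩ := ih a5 a4
    refine ⟨u ++ u', v', by simp, ?_, b2, b3⟩
    rw [pow_succ', Language.mem_mul]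
    exact ⟨u, ⟨a1, a2, a3⟩, u', b1, rfl⟩

/-- a closed word is a product of first return words -/
theorem closed_ret {p : ℕ × ℕ} : ∀ (n : ℕ) {z : List ℕ}, z.length ≤ n → z ∈ Closed M α p →
    ∃ l, z ∈ Ret M α p ^ l ∧ (z ≠ [] → 1 ≤ l) := by
  intro n
  induction n with
  | zero =>
    intro z hz hc
    have : z = [] := List.length_eq_zero_iff.1 (by omega)
    subst this
    exact ⟨0, by rw [pow_zero, Language.mem_one], by simp⟩
  | succ n ih =>
    intro z hz hc
    by_cases hne : z = []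
    · subst hne
      exact ⟨0, by rw [pow_zero, Language.mem_one], by simp⟩
    have h1 : 1 ≤ cnt M α (fun r => r == p) p z := by
      -- the last state is `p`
      have key : ∀ (z : List ℕ) (q : ℕ × ℕ), z ≠ [] → run M α q z = some p →
          1 ≤ cnt M α (fun r => r == p) q z := by
        intro z
        induction z with
        | nil => intro q h; exact absurd rfl h
        | cons a z ih =>
          intro q _ hr
          obtain ⟨q₁, b1, b2⟩ := run_cons_some hr
          rw [cnt_cons b1]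
          by_cases hz : z = []
          · subst hz
            rw [run_nil, Option.some.injEq] at b2
            subst b2
            simp
          · have := ih q₁ hz b2
            omega
      exact key z p hne hc
    obtain ⟨k, hk⟩ : ∃ k, cnt M α (fun r => r == p) p z = k + 1 := ⟨_, (Nat.sub_add_cancel h1).symm⟩
    obtain ⟨u, v, rfl, a1, a2, a3, a4, a5⟩ := cnt_first hc hk
    have h2 := List.length_pos_of_ne_nil a1
    rw [List.length_append] at hz
    obtain ⟨l, hl, -⟩ := ih (z := v) (by omega) a5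
    refine ⟨l + 1, ?_, fun _ => by omega⟩
    rw [pow_succ', Language.mem_mul]
    exact ⟨u, ⟨a1, a2, a3⟩, v, hl, rfl⟩

theorem infix_left {w u v : List ℕ} (h : ¬ w <:+: u ++ v) : ¬ w <:+: u := by
  rintro ⟨s, t, rfl⟩
  exact h ⟨s, t ++ v, by simp⟩

theorem infix_right {w u v : List ℕ} (h : ¬ w <:+: u ++ v) : ¬ w <:+: v := by
  rintro ⟨s, t, rfl⟩
  exact h ⟨u ++ s, t, by simp⟩

/-- the words of `K` without the factor `w` -/
def Fr (w : List ℕ) (K : Language ℕ) : Language ℕ := {z | z ∈ K ∧ ¬ w <:+: z}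

/-- products of words of `K` without the factor `w` -/
theorem pow_free {K : Language ℕ} {w : List ℕ} : ∀ (m : ℕ) {z : List ℕ}, z ∈ K ^ m → ¬ w <:+: z →
    z ∈ Fr w K ^ m := by
  intro m
  induction m with
  | zero => intro z hz _; exact hz
  | succ m ih =>
    intro z hz hw
    rw [pow_succ', Language.mem_mul] at hz ⊢
    obtain ⟨a, ha, b, hb, rfl⟩ := hz
    exact ⟨a, ⟨ha, infix_left hw⟩, b, ih hb (infix_right hw), rfl⟩

/-- **Theorem A.** Words without the factor `w` that visit `p` often. -/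
theorem theoremA {x : ℝ≥0∞} {p : ℕ × ℕ} {g w : List ℕ} {l : ℕ}
    (hg : g ∈ Ret M α p ^ l) (hw : w <:+: g) (hf : wt x (Closed M α p) < ∞) (m : ℕ) :
    wt x {u | (∃ q', run M α (0, 0) u = some q') ∧ ¬ w <:+: u ∧
        1 + l * m ≤ cnt M α (fun r => r == p) (0, 0) u} ≤
      wt x (Rdl M α (0, 0)) * (1 - x ^ g.length) ^ m * wt x (Rdl M α p) := by
  set D : Language ℕ := Fr w (Ret M α p ^ l) with hD
  let G : Language ℕ := {z | z = g}
  have hDw : wt x D ≤ 1 - x ^ g.length := by
    have h1 : wt x D + wt x G ≤ wt x (Ret M α p ^ l) := by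
      have h2 : wt x (D + G) ≤ wt x (Ret M α p ^ l) := by
        apply wt_mono
        intro z hz
        rcases hz with hz | hz
        · exact hz.1
        · have : z = g := hz
          rw [this]; exact hg
      refine le_trans (le_of_eq ?_) h2
      unfold wt
      symm
      exact ENNReal.summable.tsum_union_disjoint (f := fun z : List ℕ => x ^ z.length) (s := D)
        (t := G) (Set.disjoint_left.2 (fun z hc hz => hc.2 (by
          have : z = g := hz
          rw [this]; exact hw))) ENNReal.summable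
    have h3 : wt x (Ret M α p ^ l) ≤ 1 := by
      rw [wt_ret_pow]
      exact pow_le_one₀ (by simp) (wt_ret_le hf)
    have h4 : wt x G = x ^ g.length := by
      unfold wt
      exact tsum_singleton g (fun z : List ℕ => x ^ z.length)
    rw [h4] at h1
    have h5 : x ^ g.length ≠ ∞ := by
      intro hc
      rw [hc] at h1
      simp only [add_top] at h1
      exact absurd (h1.trans h3) (by simp)
    exact ENNReal.le_sub_of_add_le_right h5 (h1.trans h3)
  have h1 : wt x {u | (∃ q', run M α (0, 0) u = some q') ∧ ¬ w <:+: u ∧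
        1 + l * m ≤ cnt M α (fun r => r == p) (0, 0) u} ≤
      wt x (Rdl M α (0, 0) * D ^ m * Rdl M α p) := by
    apply wt_mono
    rintro u ⟨⟨q', hq'⟩, hu, hc⟩
    obtain ⟨k, hk⟩ : ∃ k, cnt M α (fun r => r == p) (0, 0) u = (k + l * m) + 1 :=
      ⟨cnt M α (fun r => r == p) (0, 0) u - (1 + l * m), by omega⟩
    obtain ⟨u₀, v, rfl, a1, a2, a3, a4, a5⟩ := cnt_first hq' hk
    obtain ⟨u₁, u₂, rfl, b1, b2, b3⟩ := cnt_returns (l * m) a5 a4
    rw [pow_mul] at b1
    have hw1 := infix_left (infix_right hu)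
    rw [← List.append_assoc, Language.mem_mul]
    refine ⟨u₀ ++ u₁, Language.mem_mul.2 ⟨u₀, ⟨p, a2⟩, u₁, pow_free m b1 hw1, rfl⟩, u₂, ⟨q', b2⟩,
      rfl⟩
  refine h1.trans ((wt_mul_le _ _).trans ?_)
  apply mul_le_mul_left
  refine (wt_mul_le _ _).trans ?_
  apply mul_le_mul_right
  exact (wt_pow_le D m).trans (pow_le_pow_left₀ (by simp) hDw m)

/-- **Theorem B.** Words that visit `p` often, when there are few closed words at `p`. -/
theorem theoremB {x y c : ℝ≥0∞} {p : ℕ × ℕ} (hc : x ≤ c * y) (hc1 : c ≤ 1) (m : ℕ) :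
    wt x {u | (∃ q', run M α (0, 0) u = some q') ∧
        1 + m ≤ cnt M α (fun r => r == p) (0, 0) u} ≤
      wt x (Rdl M α (0, 0)) * (c ^ m * wt y (Closed M α p)) * wt x (Rdl M α p) := by
  set D : Language ℕ := {z | z ∈ Closed M α p ∧ m ≤ z.length} with hD
  have hlen : ∀ (m : ℕ) (z : List ℕ), z ∈ Ret M α p ^ m → m ≤ z.length := by
    intro m
    induction m with
    | zero => intro z _; exact Nat.zero_le _
    | succ m ih =>
      intro z hz
      rw [pow_succ', Language.mem_mul] at hz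
      obtain ⟨a, ha, b, hb, rfl⟩ := hz
      have h1 := List.length_pos_of_ne_nil ha.1
      have h2 := ih b hb
      rw [List.length_append]
      omega
  have h1 : wt x {u | (∃ q', run M α (0, 0) u = some q') ∧
        1 + m ≤ cnt M α (fun r => r == p) (0, 0) u} ≤
      wt x (Rdl M α (0, 0) * D * Rdl M α p) := by
    apply wt_mono
    rintro u ⟨⟨q', hq'⟩, hc⟩
    obtain ⟨k, hk⟩ : ∃ k, cnt M α (fun r => r == p) (0, 0) u = (k + m) + 1 :=
      ⟨cnt M α (fun r => r == p) (0, 0) u - (1 + m), by omega⟩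
    obtain ⟨u₀, v, rfl, a1, a2, a3, a4, a5⟩ := cnt_first hq' hk
    obtain ⟨u₁, u₂, rfl, b1, b2, b3⟩ := cnt_returns m a5 a4
    rw [← List.append_assoc, Language.mem_mul]
    exact ⟨u₀ ++ u₁, Language.mem_mul.2 ⟨u₀, ⟨p, a2⟩, u₁, ⟨ret_pow_closed p m b1, hlen m u₁ b1⟩,
      rfl⟩, u₂, ⟨q', b2⟩, rfl⟩
  refine h1.trans ((wt_mul_le _ _).trans ?_)
  apply mul_le_mul_left
  refine (wt_mul_le _ _).trans ?_
  apply mul_le_mul_right
  have h2 := wt_long (L := D) (x := x) (y := y) (k := m) hc hc1 (fun z hz => hz.2)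
  refine h2.trans ?_
  apply mul_le_mul_right
  exact wt_mono (fun z hz => hz.1)

end Pool.Agent.H34.QS
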