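import Pool.Agent.H34.Low

set_option autoImplicit false

open scoped ENNReal

namespace Pool.Agent.H34.QS

variable {M : ℕ} {α : ℕ → ℕ}

/-- transitivity of the language of the automaton -/
def Trans (M : ℕ) (α : ℕ → ℕ) : Prop :=
  ∀ u w q₁ q₂, run M α (0, 0) u = some q₁ → run M α (0, 0) w = some q₂ →
    ∃ v q₃, run M α (0, 0) (u ++ v ++ w) = some q₃

theorem run_zero_of (h : Adm M α) {q q' : ℕ × ℕ} {z : List ℕ} (hz : run M α q z = some q') :
    ∃ r, run M α (0, 0) z = some r := by
  obtain ⟨r, h1, -⟩ := run_weak h (q := q) (r := (0, 0)) (ov_zero _) (ov_zero _) hz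
  exact ⟨r, h1⟩

theorem reach_zero (h : Adm M α) (s : ℕ) : Reach M α (0, 0) (st M α true s) := by
  have := reach_main h true 0 s
  rwa [st_zero, Nat.zero_add] at this

theorem reach_zero' (h : Adm M α) (e : Bool) (s : ℕ) : Reach M α (0, 0) (st M α e s) := by
  have := reach_main h e 0 s
  rwa [st_zero, Nat.zero_add] at this

theorem run_inv0 (h : Adm M α) {z : List ℕ} {q' : ℕ × ℕ} (hq : run M α (0, 0) z = some q') :
    ∃ e s, q' = st M α e s := by
  have h1 : run M α (st M α true 0) z = some q' := by rw [st_zero]; exact hq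
  exact run_inv h h1

/-- all words of length at most `T` with digits at most `M` -/
def Short (M T : ℕ) : Language ℕ := {z | z.length ≤ T ∧ ∀ a ∈ z, a ≤ M}

theorem short_finite (M T : ℕ) : Set.Finite (Short M T : Set (List ℕ)) := by
  apply ((List.finite_length_le (Fin (M + 1)) T).image (List.map Fin.val)).subset
  rintro z ⟨h1, h2⟩
  refine ⟨z.pmap (fun a ha => (⟨a, Nat.lt_succ_of_le ha⟩ : Fin (M + 1))) h2, by simpa using h1, ?_⟩
  rw [List.map_pmap]
  simp

/-- the prefixes of a periodic sequence -/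
def PFL (M : ℕ) (α : ℕ → ℕ) (T : ℕ) (e : Bool) : Language ℕ := {z | PF M α T e z}

theorem wt_pfl (T : ℕ) (e : Bool) (y : ℝ≥0∞) : wt y (PFL M α T e) ≤ (1 - y)⁻¹ := by
  apply wt_of_length_inj
  intro a ha b hb hab
  apply List.ext_getElem hab
  intro i h1 h2
  rw [ha i h1, hb i h2]

theorem closed_finite {T : ℕ} {p : ℕ × ℕ}
    (hz : ∀ z ∈ Closed M α p, ∃ m ≤ T, ∃ e, PF M α T e (z.drop m)) {y : ℝ≥0∞} (hy : y < 1) :
    wt y (Closed M α p) < ∞ := by
  have h1 : wt y (Closed M α p) ≤ wt y (Short M T * (PFL M α T true + PFL M α T false)) := by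
    apply wt_mono
    intro z hzc
    obtain ⟨m, hm, e, he⟩ := hz z hzc
    rw [Language.mem_mul]
    refine ⟨z.take m, ⟨by rw [List.length_take]; omega,
      fun a ha => digit_le hzc a (List.mem_of_mem_take ha)⟩, z.drop m, ?_, List.take_append_drop _ _⟩
    cases e
    · exact Or.inr he
    · exact Or.inl he
  refine h1.trans_lt ((wt_mul_le _ _).trans_lt ?_)
  have hy' : (1 - y)⁻¹ < ∞ := by
    rw [ENNReal.inv_lt_top]
    exact tsub_pos_of_lt hy
  apply ENNReal.mul_lt_top
  · exact wt_finite (short_finite M T) (hy.trans (by simp))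
  · refine (wt_union_le _ _).trans_lt ?_
    rw [ENNReal.add_lt_top]
    exact ⟨(wt_pfl T true y).trans_lt hy', (wt_pfl T false y).trans_lt hy'⟩

/-- closed words at a state that cannot be reached from a closed set `R` -/
theorem closed_of_cls (h : Adm M α) {p : ℕ × ℕ} {R : ℕ × ℕ → Prop}
    (hR : ∀ q q', R q → Reach M α q q' → R q') (hp : Reach M α (0, 0) p) (hpR : ¬ R p) {T : ℕ}
    (hT : 1 ≤ T) (hTt : tau M α T = 0) (ha : ∀ e s, T ≤ s → R (st M α e s)) (hCl : Cl M α T)
    (hc : ∀ z, (∃ r, run M α (0, 0) z = some r) → ∃ e s q', T ≤ s ∧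
      run M α (st M α e s) z = some q') :
    ∀ z ∈ Closed M α p, ∃ m ≤ T, ∃ e, PF M α T e (z.drop m) := by
  intro z hz
  obtain ⟨e, s, q', hs, hrun⟩ := hc z (run_zero_of h hz)
  refine str h hT hTt hCl hs hrun ?_
  obtain ⟨up, hup⟩ := hp
  have key : ∀ (x y : List ℕ) (q₂ : ℕ × ℕ), run M α p x = some q₂ → run M α q₂ y = some p →
      T ≤ max q₂.1 q₂.2 → False := by
    intro x y q₂ h1 h2 h3
    obtain ⟨e, s, rfl⟩ := run_inv0 h (run_append_of hup h1)
    have h4 := tau_le h s
    have h5 : T ≤ s := by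
      cases e
      · simp only [st, Bool.false_eq_true, if_false] at h3; omega
      · simp only [st, if_true] at h3; omega
    exact hpR (hR _ _ (ha e s h5) ⟨y, h2⟩)
  constructor
  · rintro ⟨x, y, rfl⟩
    obtain ⟨q₂, b1, b2⟩ := run_append_some hz
    obtain ⟨q₁, b3, b4⟩ := run_append_some b1
    have h1 := (run_pre h b4).1
    exact key _ _ _ b1 b2 (h1.trans (le_max_left _ _))
  · rintro ⟨x, y, rfl⟩
    obtain ⟨q₂, b1, b2⟩ := run_append_some hz
    obtain ⟨q₁, b3, b4⟩ := run_append_some b1
    have h1 := (run_bpre h b4).1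
    exact key _ _ _ b1 b2 (h1.trans (le_max_right _ _))

/-- every word can be read from some state reachable from `p₁` -/
theorem read_from (h : Adm M α) (tr : Trans M α) {p₁ : ℕ × ℕ} (hp₁ : Reach M α (0, 0) p₁)
    {T : ℕ} (hT : ∀ e s, Reach M α p₁ (st M α e s) → T ≤ s) (z : List ℕ)
    (hz : ∃ r, run M α (0, 0) z = some r) :
    ∃ e s q', T ≤ s ∧ run M α (st M α e s) z = some q' := by
  obtain ⟨u, hu⟩ := hp₁
  obtain ⟨r, hr⟩ := hz
  obtain ⟨v, q₃, hv⟩ := tr u z p₁ r hu hr
  obtain ⟨q, b1, b2⟩ := run_append_some hv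
  obtain ⟨e, s, rfl⟩ := run_inv0 h b1
  obtain ⟨q₁, b3, b4⟩ := run_append_some b1
  rw [hu, Option.some.injEq] at b3
  subst b3
  exact ⟨e, s, q₃, hT e s ⟨v, b4⟩, b2⟩

/-- **Dichotomy.** Either `w` occurs in a closed word at `p`, or there are few closed words at `p`. -/
theorem dichotomy (h : Adm M α) (np : NP M α) (tr : Trans M α) {p : ℕ × ℕ}
    (hp : Reach M α (0, 0) p) {w : List ℕ} {r : ℕ × ℕ} (hw : run M α (0, 0) w = some r) :
    (∃ g, g ∈ Closed M α p ∧ w <:+: g) ∨ ∀ y : ℝ≥0∞, y < 1 → wt y (Closed M α p) < ∞ := by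
  classical
  obtain ⟨up, hup⟩ := hp
  obtain ⟨v, p₁, hv⟩ := tr up w p r hup hw
  by_cases hback : Reach M α p₁ p
  · left
    obtain ⟨z', hz'⟩ := hback
    rw [List.append_assoc] at hv
    obtain ⟨q, b1, b2⟩ := run_append_some hv
    rw [hup, Option.some.injEq] at b1
    subst b1
    exact ⟨v ++ w ++ z', run_append_of b2 hz', ⟨v, z', rfl⟩⟩
  · right
    intro y hy
    set R : ℕ × ℕ → Prop := fun q => Reach M α p₁ q with hRdef
    have hR : ∀ q q', R q → Reach M α q q' → R q' := fun q q' h1 h2 => h1.trans h2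
    have h0 : ¬ R (0, 0) := fun hc => hback (hc.trans ⟨up, hup⟩)
    obtain ⟨e₁, s₁, hp₁⟩ := run_inv0 h hv
    have hs₁ : 1 ≤ s₁ := by
      by_contra hc
      have : s₁ = 0 := by omega
      subst this
      rw [st_zero] at hp₁
      apply h0
      rw [hRdef, hp₁]
      exact Reach.refl _
    obtain ⟨j, a1, a2, -, -, -⟩ := reach_next h np hs₁ e₁
    rw [← hp₁] at a1
    have hex : ∃ s, 1 ≤ s ∧ tau M α s = 0 ∧ ∃ e, R (st M α e s) := ⟨s₁ + j + 1, by omega, a2, e₁, a1⟩
    obtain ⟨hT1, hT2, e₂, hT3⟩ := Nat.find_spec hex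
    have hmin : ∀ e s, 1 ≤ s → s < Nat.find hex → tau M α s = 0 → ¬ R (st M α e s) := by
      intro e s h1 h2 h3 h4
      exact Nat.find_min hex h2 ⟨h1, h3, e, h4⟩
    obtain ⟨c1, c2, c3⟩ := cls h np hR h0 hT1 hT3 hmin
    refine closed_finite (closed_of_cls h hR ⟨up, hup⟩ hback hT1 hT2 c1 c2
      (read_from h tr ⟨_, hv⟩ c3)) hy

/-- the alternating word -/
def alt (M : ℕ) (α : ℕ → ℕ) (n : ℕ) : List ℕ :=
  (List.range n).map fun i => if i % 2 = 0 then M - α 0 else α 0

theorem infix_get {u z : List ℕ} (huz : u <:+: z) :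
    ∃ k, ∀ i (hi : i < u.length), ∃ hk : k + i < z.length, z[k + i] = u[i] := by
  obtain ⟨a, b, rfl⟩ := huz
  refine ⟨a.length, fun i hi => ⟨by simp only [List.length_append]; omega, ?_⟩⟩
  rw [List.getElem_append_left (by simp only [List.length_append]; omega),
    List.getElem_append_right (by omega)]
  simp

/-- two closed words with different first digits -/
theorem two_closed (h : Adm M α) (np : NP M α) (tr : Trans M α) :
    ∃ p, Reach M α (0, 0) p ∧ ∃ a b g₁ g₂, a ≠ b ∧ a :: g₁ ∈ Closed M α p ∧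
      b :: g₂ ∈ Closed M α p := by
  by_contra hcon
  push Not at hcon
  have t1 := tau_one h
  have hpos := h.pos
  have l0 := h.le 0
  have l1 := h.le 1
  have hα1 : M - α 0 < α 1 := by
    have h1 := dead h 1
    rw [t1] at h1
    rcases Nat.lt_or_ge (M - α 0) (α 1) with h2 | h2
    · exact h2
    · exfalso
      apply np 1 le_rfl
      apply qle h le_rfl
      intro i hi
      have : i = 0 := by omega
      subst this
      show α 1 = M - α 0
      omega
  -- the closed word at `(1, 0)`
  have f1 : step M α (st M α true 1) (M - α 0) = some (st M α false 1) := by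
    have h1 := step_flip h (s := 1) (by rw [t1]; exact hα1)
    rwa [t1] at h1
  have f2 : step M α (st M α false 1) (α 0) = some (st M α true 1) := by
    have h1 := step_swap f1
    rw [st_swap, st_swap] at h1
    have e : M - (M - α 0) = α 0 := by omega
    rwa [e] at h1
  have r01 : Reach M α (0, 0) (st M α true 1) := reach_zero h 1
  have n1 : ¬ Reach M α (st M α true 2) (st M α true 1) := by
    rintro ⟨z, hz⟩
    have h1 : step M α (st M α true 1) (α 1) = some (st M α true 2) := step_main h 1
    exact hcon _ r01 (M - α 0) (α 1) [α 0] z (by omega)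
      (run_cons_of f1 (run_single f2)) (run_cons_of h1 hz)
  have t2 : tau M α 2 = 0 := by
    rw [tau_succ, t1, if_neg (by omega)]
  -- level 2
  have c2 := cls h np (R := fun q => Reach M α (st M α true 2) q) (fun q q' h1 h2 => h1.trans h2)
    (fun hc => n1 (hc.trans r01)) (T := 2) (by omega) (e₁ := true) (Reach.refl _) (by
      intro e s h1 h2 _ h4
      have hs : s = 1 := by omega
      subst hs
      cases e
      · exact n1 (h4.trans (Reach.step f2))
      · exact n1 h4)
  obtain ⟨-, -, c23⟩ := c2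
  obtain ⟨j, b1, b2, b3, b4, b5⟩ := reach_next h np (s := 2) (by omega) true
  rw [t2] at b3 b4 b5
  have hj1 := c23 _ _ b3
  have hj : j = 1 := by
    by_contra hc
    apply np 2 (by omega)
    apply qle h (by omega)
    intro i hi
    have := b5 i (by omega)
    rwa [Nat.zero_add] at this
  subst hj
  have hα2 : α 2 = M - α 0 := by simpa using b5 0 (by omega)
  have t3 : tau M α 3 = 1 := by
    rw [tau_succ, t2, if_pos hα2]
  have t4 : tau M α 4 = 0 := b2
  have hα3 : M - α 1 < α 3 := by
    have h1 := dead h 3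
    rw [t3] at h1
    rcases Nat.lt_or_ge (M - α 1) (α 3) with h2 | h2
    · exact h2
    · exfalso
      rw [tau_succ, t3, if_pos (by omega)] at t4
      omega
  have r22 : Reach M α (st M α false 2) (st M α true 2) := by
    have := b3.swap
    rwa [st_swap, st_swap] at this
  have n2 : ¬ Reach M α (st M α true 4) (st M α true 2) := by
    intro hc
    have h1 : step M α (st M α true 3) (α 3) = some (st M α true 4) := step_main h 3
    have h2 : step M α (st M α true 3) (M - α 1) = some (st M α false 2) := by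
      have := step_flip h (s := 3) (by rw [t3]; exact hα3)
      rwa [t3] at this
    have h3 : Reach M α (st M α true 2) (st M α true 3) := reach_main h true 2 1
    obtain ⟨z₁, hz₁⟩ := r22.trans h3
    obtain ⟨z₂, hz₂⟩ := hc.trans h3
    exact hcon _ (reach_zero h 3) (M - α 1) (α 3) z₁ z₂ (by omega)
      (run_cons_of h2 hz₁) (run_cons_of h1 hz₂)
  -- level 4
  have r12 : Reach M α (st M α true 1) (st M α true 2) := reach_main h true 1 1
  have c4 := cls h np (R := fun q => Reach M α (st M α true 4) q) (fun q q' h1 h2 => h1.trans h2)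
    (fun hc => n2 (hc.trans (reach_zero h 2))) (T := 4) (by omega) (e₁ := true) (Reach.refl _) (by
      intro e s h1 h2 h3 h4
      have hs : s = 1 ∨ s = 2 ∨ s = 3 := by omega
      rcases hs with rfl | rfl | rfl
      · cases e
        · exact n2 ((h4.trans (Reach.step f2)).trans r12)
        · exact n2 (h4.trans r12)
      · cases e
        · exact n2 (h4.trans r22)
        · exact n2 h4
      · rw [t3] at h3
        omega)
  obtain ⟨-, c42, c43⟩ := c4
  -- the alternating word
  have halt : ∀ n, run M α (st M α true 1) (alt M α n) =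
      some (if n % 2 = 0 then st M α true 1 else st M α false 1) := by
    intro n
    induction n with
    | zero => simp [alt]
    | succ n ih =>
      have h1 : alt M α (n + 1) = alt M α n ++ [if n % 2 = 0 then M - α 0 else α 0] := by
        unfold alt; rw [List.range_succ]; simp
      rw [h1]
      refine run_append_of ih ?_
      rcases Nat.mod_two_eq_zero_or_one n with h2 | h2
      · rw [if_pos h2, if_pos h2, if_neg (by omega)]
        exact run_single f1
      · rw [if_neg (by omega), if_neg (by omega), if_pos (by omega)]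
        exact run_single f2
  have hget : ∀ i (hi : i < (alt M α 10).length),
      (alt M α 10)[i] = if i % 2 = 0 then M - α 0 else α 0 := by
    intro i hi
    unfold alt
    rw [List.getElem_map, List.getElem_range]
  have hlen : (alt M α 10).length = 10 := by simp [alt]
  have hnf : NF M α 4 (alt M α 10) := by
    constructor
    · intro hc
      obtain ⟨k, hk⟩ := infix_get hc
      obtain ⟨k0, e0⟩ := hk 0 (by simp)
      obtain ⟨k1, e1⟩ := hk 1 (by simp)
      rw [hget] at e0 e1
      simp only [pre, List.getElem_map, List.getElem_range] at e0 e1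
      split_ifs at e0 e1 <;> omega
    · intro hc
      obtain ⟨k, hk⟩ := infix_get hc
      obtain ⟨k0, e0⟩ := hk 0 (by simp)
      obtain ⟨k1, e1⟩ := hk 1 (by simp)
      rw [hget] at e0 e1
      simp only [bpre, List.getElem_map, List.getElem_range] at e0 e1
      split_ifs at e0 e1 <;> omega
  obtain ⟨e, s, q', hs, hrun⟩ := read_from h tr (reach_zero h 4) c43 (alt M α 10)
    (run_zero_of h (halt 10))
  obtain ⟨m, hm, e', he'⟩ := str h (T := 4) (by omega) t4 c42 hs hrun hnf
  have g0 := he' 0 (by rw [List.length_drop, hlen]; omega)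
  have g1 := he' 1 (by rw [List.length_drop, hlen]; omega)
  rw [List.getElem_drop, hget] at g0 g1
  have p0 : perd M α 4 0 = M - α 0 := by simp [perd]
  have p1 : perd M α 4 1 = M - α 1 := by simp [perd]
  rw [p0] at g0
  rw [p1] at g1
  cases e'
  · simp only [Bool.false_eq_true, if_false] at g0 g1
    split_ifs at g0 g1 <;> omega
  · simp only [if_true] at g0 g1
    split_ifs at g0 g1 <;> omega

end Pool.Agent.H34.QS
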