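import Pool.Agent.H34.Link

set_option autoImplicit false

open scoped ENNReal
open Filter Topology

namespace Pool.Agent.H34.QS

variable {M : ℕ} {α : ℕ → ℕ}

theorem wt_le_tsum {x : ℝ≥0∞} {L : Language ℕ} (W : ℕ → Finset (List ℕ))
    (hW : ∀ z ∈ L, z ∈ W z.length) (hlen : ∀ n, ∀ z ∈ W n, z.length = n) :
    wt x L ≤ ∑' n, (W n).card * x ^ n := by
  unfold wt
  have h1 := ENNReal.tsum_comp_le_tsum_of_injective
    (f := fun z : {z // z ∈ L} => (⟨z.1.length, ⟨z.1, hW z.1 z.2⟩⟩ : Σ n, {z // z ∈ W n}))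
    (by
      intro a b hab
      have : ∀ p q : (Σ n, {z // z ∈ W n}), p = q → p.2.1 = q.2.1 := by
        rintro p q rfl; rfl
      exact Subtype.ext (this _ _ hab))
    (fun p => x ^ p.2.1.length)
  refine h1.trans (le_of_eq ?_)
  rw [ENNReal.tsum_sigma (fun n (z : {z // z ∈ W n}) => x ^ z.1.length)]
  congr 1
  funext n
  rw [tsum_fintype]
  have h2 : ∀ b : {z // z ∈ W n}, x ^ b.1.length = x ^ n := fun b => by rw [hlen n b.1 b.2]
  simp_rw [h2]
  rw [Finset.sum_const, Finset.card_univ, Fintype.card_coe, nsmul_eq_mul]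

theorem wt_rdl_finite {hh s : ℝ} (hlim : Tendsto (fun n : ℕ =>
    Real.log ((words M α n (0, 0)).card) / n) atTop (𝓝 hh)) (hs : hh < s) :
    wt (ENNReal.ofReal (Real.exp (-s))) (Rdl M α (0, 0)) < ∞ := by
  refine (wt_le_tsum (fun n => words M α n (0, 0)) (fun z hz => mem_words.2 ⟨rfl, hz⟩)
    (fun n z hz => (mem_words.1 hz).1)).trans_lt ?_
  have h1 : ∀ n : ℕ, ((words M α n (0, 0)).card : ℝ≥0∞) * ENNReal.ofReal (Real.exp (-s)) ^ n =
      ENNReal.ofReal ((words M α n (0, 0)).card * Real.exp (-s) ^ n) := by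
    intro n
    rw [ENNReal.ofReal_mul (by positivity), ENNReal.ofReal_natCast,
      ENNReal.ofReal_pow (Real.exp_pos _).le]
  simp_rw [h1]
  apply Summable.tsum_ofReal_lt_top
  have h2 : ∀ᶠ n : ℕ in atTop, Real.log ((words M α n (0, 0)).card) / n < (hh + s) / 2 :=
    hlim.eventually_lt_const (by linarith)
  refine Summable.of_norm_bounded_eventually_nat (g := fun n => Real.exp ((hh - s) / 2) ^ n)
    (summable_geometric_of_lt_one (Real.exp_pos _).le (by rw [Real.exp_lt_one_iff]; linarith)) ?_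
  filter_upwards [h2, eventually_gt_atTop 0] with n hn hn0
  have hn0' : (0 : ℝ) < n := by exact_mod_cast hn0
  rw [Real.norm_of_nonneg (by positivity)]
  have h3 : ((words M α n (0, 0)).card : ℝ) ≤ Real.exp ((hh + s) / 2 * n) := by
    rcases Nat.eq_zero_or_pos (words M α n (0, 0)).card with h4 | h4
    · rw [h4]; simp only [Nat.cast_zero]; positivity
    · rw [div_lt_iff₀ hn0'] at hn
      have h5 : (0 : ℝ) < (words M α n (0, 0)).card := by exact_mod_cast h4
      exact (Real.log_le_iff_le_exp h5).1 hn.le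
  calc ((words M α n (0, 0)).card : ℝ) * Real.exp (-s) ^ n
      ≤ Real.exp ((hh + s) / 2 * n) * Real.exp (-s) ^ n := by gcongr
    _ = Real.exp ((hh - s) / 2) ^ n := by
      rw [← Real.exp_nat_mul, ← Real.exp_nat_mul, ← Real.exp_add]
      congr 1
      ring

theorem closed_finite_of {x : ℝ≥0∞} (hx : x ≠ 0) {p : ℕ × ℕ} (hp : Reach M α (0, 0) p)
    (hf : wt x (Rdl M α (0, 0)) < ∞) : wt x (Closed M α p) < ∞ := by
  obtain ⟨up, hup⟩ := hp
  refine finite_of_prefix hx up ?_ hf
  intro z hz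
  exact ⟨_, run_append_of hup hz⟩

theorem rdl_finite_of {x : ℝ≥0∞} (hx : x ≠ 0) {p : ℕ × ℕ} (hp : Reach M α (0, 0) p)
    (hf : wt x (Rdl M α (0, 0)) < ∞) : wt x (Rdl M α p) < ∞ := by
  obtain ⟨up, hup⟩ := hp
  refine finite_of_prefix hx up ?_ hf
  rintro z ⟨q, hz⟩
  exact ⟨_, run_append_of hup hz⟩

theorem wt_pow_fixed {x : ℝ≥0∞} {D : Language ℕ} {L : ℕ} (hD : ∀ z ∈ D, z.length = L) (k : ℕ) :
    wt x (D ^ k) = wt x D ^ k := by
  induction k with
  | zero => rw [pow_zero, pow_zero, wt_one]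
  | succ k ih =>
    rw [pow_succ', pow_succ', wt_mul_eq, ih]
    intro a ha b _ a' ha' b' _ hab
    exact (List.append_inj hab (by rw [hD a ha, hD a' ha'])).1

theorem closed_mul {p : ℕ × ℕ} {D : Language ℕ} (hD : ∀ z ∈ D, z ∈ Closed M α p) (k : ℕ) :
    ∀ z ∈ D ^ k, z ∈ Closed M α p := by
  induction k with
  | zero =>
    intro z hz
    rw [pow_zero, Language.mem_one] at hz
    rw [hz]; exact rfl
  | succ k ih =>
    intro z hz
    rw [pow_succ', Language.mem_mul] at hz
    obtain ⟨a, ha, b, hb, rfl⟩ := hz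
    exact run_append_of (hD a ha) (ih b hb)

theorem h_pos (h : Adm M α) (np : NP M α) (tr : Trans M α) {hh : ℝ}
    (hlim : Tendsto (fun n : ℕ =>
      Real.log ((words M α n (0, 0)).card) / n) atTop (𝓝 hh)) : 0 < hh := by
  by_contra hcon
  rw [not_lt] at hcon
  obtain ⟨p, hp, a, b, g₁, g₂, hab, h1, h2⟩ := two_closed h np tr
  set G₁ := a :: g₁ with hG₁
  set G₂ := b :: g₂ with hG₂
  set L := G₁.length + G₂.length with hL
  have hLpos : 0 < L := by rw [hL, hG₁]; simp
  let D : Language ℕ := {z | z = G₁ ++ G₂ ∨ z = G₂ ++ G₁}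
  have hDc : ∀ z ∈ D, z ∈ Closed M α p := by
    rintro z (rfl | rfl)
    · exact run_append_of h1 h2
    · exact run_append_of h2 h1
  have hDl : ∀ z ∈ D, z.length = L := by
    rintro z (rfl | rfl)
    · rw [List.length_append]
    · rw [List.length_append, Nat.add_comm]
  have hne : G₁ ++ G₂ ≠ G₂ ++ G₁ := by
    rw [hG₁, hG₂, List.cons_append, List.cons_append]
    intro hc
    exact hab (List.cons.inj hc).1
  set s := Real.log 2 / (2 * L) with hs
  have hLr : (0 : ℝ) < L := by exact_mod_cast hLpos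
  have hs0 : 0 < s := by
    have := Real.log_pos (show (1 : ℝ) < 2 by norm_num)
    positivity
  set x := ENNReal.ofReal (Real.exp (-s)) with hx
  have hx0 : x ≠ 0 := by
    rw [hx]; simpa using Real.exp_pos _
  have hf := closed_finite_of hx0 hp (wt_rdl_finite hlim (hcon.trans_lt hs0))
  have h3 : 1 < wt x D := by
    have h4 := card_mul_le (x := x) (L := D) (n := L) (S := {G₁ ++ G₂, G₂ ++ G₁}) (by
      intro z hz
      rw [Finset.mem_insert, Finset.mem_singleton] at hz
      exact ⟨hz, hDl z hz⟩)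
    rw [Finset.card_pair hne] at h4
    refine lt_of_lt_of_le ?_ h4
    have h5 : ((2 : ℕ) : ℝ≥0∞) * x ^ L = ENNReal.ofReal (2 * Real.exp (-s) ^ L) := by
      rw [ENNReal.ofReal_mul (by norm_num), ENNReal.ofReal_pow (Real.exp_pos _).le]
      congr 1
      simp
    rw [h5, ENNReal.one_lt_ofReal, ← Real.exp_nat_mul]
    have h6 : (L : ℝ) * -s = -(Real.log 2 / 2) := by
      rw [hs]; field_simp
    rw [h6]
    have h7 : Real.exp (Real.log 2) = 2 := Real.exp_log (by norm_num)
    have h8 := Real.log_pos (show (1 : ℝ) < 2 by norm_num)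
    calc (1 : ℝ) < Real.exp (Real.log 2 + -(Real.log 2 / 2)) := by
          rw [Real.one_lt_exp_iff]; linarith
      _ = 2 * Real.exp (-(Real.log 2 / 2)) := by rw [Real.exp_add, h7]
  have h4 := ENNReal.tendsto_pow_atTop_nhds_top_iff.2 h3
  have h5 : ∀ m, wt x D ^ m ≤ wt x (Closed M α p) := by
    intro m
    rw [← wt_pow_fixed hDl]
    exact wt_mono (closed_mul hDc m)
  have h6 := le_of_tendsto' h4 h5
  rw [top_le_iff] at h6
  rw [h6] at hf
  exact absurd hf (by simp)

/-- the number of words of length `n` with property `P` -/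
theorem card_real {hh δ κ : ℝ} {n m : ℕ} {S : Finset (List ℕ)} {L : Language ℕ} {C : ℝ≥0∞}
    (hκ : 0 ≤ κ) (hS : ∀ z ∈ S, z ∈ L ∧ z.length = n) (hC : C < ∞)
    (hw : wt (ENNReal.ofReal (Real.exp (-(hh + δ)))) L ≤ C * ENNReal.ofReal κ ^ m) :
    (S.card : ℝ) ≤ C.toReal * Real.exp ((hh + δ) * n) * κ ^ m := by
  have h1 := (card_mul_le hS).trans hw
  have h2 : (S.card : ℝ≥0∞) * ENNReal.ofReal (Real.exp (-(hh + δ))) ^ n =
      ENNReal.ofReal (S.card * Real.exp (-(hh + δ)) ^ n) := by
    rw [ENNReal.ofReal_mul (by positivity), ENNReal.ofReal_natCast,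
      ENNReal.ofReal_pow (Real.exp_pos _).le]
  have h3 : C * ENNReal.ofReal κ ^ m = ENNReal.ofReal (C.toReal * κ ^ m) := by
    rw [ENNReal.ofReal_mul (by positivity), ENNReal.ofReal_toReal hC.ne,
      ENNReal.ofReal_pow hκ]
  rw [h2, h3, ENNReal.ofReal_le_ofReal_iff (by positivity)] at h1
  have h4 : Real.exp (-(hh + δ)) ^ n * Real.exp ((hh + δ) * n) = 1 := by
    rw [← Real.exp_nat_mul, ← Real.exp_add, Real.exp_eq_one_iff]
    ring
  calc (S.card : ℝ) = S.card * Real.exp (-(hh + δ)) ^ n * Real.exp ((hh + δ) * n) := by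
        rw [mul_assoc, h4, mul_one]
    _ ≤ C.toReal * κ ^ m * Real.exp ((hh + δ) * n) := by gcongr
    _ = _ := by ring

theorem key (h : Adm M α) (np : NP M α) (tr : Trans M α) {hh : ℝ}
    (hlim : Tendsto (fun n : ℕ =>
      Real.log ((words M α n (0, 0)).card) / n) atTop (𝓝 hh))
    {w : List ℕ} {r : ℕ × ℕ} (hw : run M α (0, 0) w = some r) (p : ℕ × ℕ) :
    ∃ (l : ℕ) (κ : ℝ), 0 ≤ κ ∧ κ < 1 ∧ ∀ δ : ℝ, 0 < δ → δ ≤ 1 → ∃ C : ℝ, 0 ≤ C ∧ ∀ n m : ℕ,
      (((words M α n (0, 0)).filter (fun z => ¬ w <:+: z ∧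
        1 + l * m ≤ cnt M α (fun r => r == p) (0, 0) z)).card : ℝ) ≤
        C * Real.exp ((hh + δ) * n) * κ ^ m := by
  have hpos := h_pos h np tr hlim
  by_cases hp : Reach M α (0, 0) p
  · have hx0 : ∀ s : ℝ, ENNReal.ofReal (Real.exp (-s)) ≠ 0 := by
      intro s; simpa using Real.exp_pos _
    rcases dichotomy h np tr hp hw with ⟨g, hg, hwg⟩ | hy
    · obtain ⟨l, hl, -⟩ := closed_ret g.length le_rfl hg
      refine ⟨l, 1 - Real.exp (-(hh + 1)) ^ g.length, ?_, ?_, ?_⟩
      · have : Real.exp (-(hh + 1)) ^ g.length ≤ 1 :=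
          pow_le_one₀ (Real.exp_pos _).le (by rw [Real.exp_le_one_iff]; linarith)
        linarith
      · have : 0 < Real.exp (-(hh + 1)) ^ g.length := by positivity
        linarith
      · intro δ hδ hδ1
        have hfin := wt_rdl_finite hlim (show hh < hh + δ by linarith)
        have hf1 := closed_finite_of (hx0 _) hp hfin
        have hf2 := rdl_finite_of (hx0 _) hp hfin
        refine ⟨(wt (ENNReal.ofReal (Real.exp (-(hh + δ)))) (Rdl M α (0, 0)) *
          wt (ENNReal.ofReal (Real.exp (-(hh + δ)))) (Rdl M α p)).toReal, by positivity, ?_⟩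
        intro n m
        refine card_real (L := {u | (∃ q', run M α (0, 0) u = some q') ∧ ¬ w <:+: u ∧
          1 + l * m ≤ cnt M α (fun r => r == p) (0, 0) u}) ?_ ?_ (ENNReal.mul_lt_top hfin hf2) ?_
        · have : Real.exp (-(hh + 1)) ^ g.length ≤ 1 :=
            pow_le_one₀ (Real.exp_pos _).le (by rw [Real.exp_le_one_iff]; linarith)
          linarith
        · intro z hz
          rw [Finset.mem_filter] at hz
          obtain ⟨h1, h2⟩ := mem_words.1 hz.1
          exact ⟨⟨h2, hz.2⟩, h1⟩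
        · refine (theoremA hl hwg hf1 m).trans ?_
          rw [mul_right_comm]
          gcongr
          rw [ENNReal.ofReal_sub _ (by positivity), ENNReal.ofReal_one,
            ENNReal.ofReal_pow (Real.exp_pos _).le]
          apply tsub_le_tsub_left
          gcongr
    · refine ⟨1, Real.exp (-(hh / 2)), (Real.exp_pos _).le, ?_, ?_⟩
      · rw [Real.exp_lt_one_iff]; linarith
      · intro δ hδ hδ1
        have hfin := wt_rdl_finite hlim (show hh < hh + δ by linarith)
        have hf2 := rdl_finite_of (hx0 _) hp hfin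
        have hylt : ENNReal.ofReal (Real.exp (-(hh / 2))) < 1 := by
          rw [ENNReal.ofReal_lt_one, Real.exp_lt_one_iff]; linarith
        have hf1 := hy _ hylt
        refine ⟨(wt (ENNReal.ofReal (Real.exp (-(hh + δ)))) (Rdl M α (0, 0)) *
          (wt (ENNReal.ofReal (Real.exp (-(hh / 2)))) (Closed M α p) *
          wt (ENNReal.ofReal (Real.exp (-(hh + δ)))) (Rdl M α p))).toReal, by positivity, ?_⟩
        intro n m
        refine card_real (L := {u | (∃ q', run M α (0, 0) u = some q') ∧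
          1 + m ≤ cnt M α (fun r => r == p) (0, 0) u}) (Real.exp_pos _).le ?_
          (ENNReal.mul_lt_top hfin (ENNReal.mul_lt_top hf1 hf2)) ?_
        · intro z hz
          rw [Finset.mem_filter, one_mul] at hz
          obtain ⟨h1, h2⟩ := mem_words.1 hz.1
          exact ⟨⟨h2, hz.2.2⟩, h1⟩
        · refine (theoremB (x := ENNReal.ofReal (Real.exp (-(hh + δ))))
            (y := ENNReal.ofReal (Real.exp (-(hh / 2))))
            (c := ENNReal.ofReal (Real.exp (-(hh / 2)))) ?_ hylt.le m).trans (le_of_eq ?_)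
          · rw [← ENNReal.ofReal_mul (Real.exp_pos _).le, ← Real.exp_add]
            apply ENNReal.ofReal_le_ofReal
            rw [Real.exp_le_exp]
            linarith
          · ring
  · refine ⟨1, 0, le_rfl, by norm_num, ?_⟩
    intro δ _ _
    refine ⟨0, le_rfl, ?_⟩
    intro n m
    have : (words M α n (0, 0)).filter (fun z => ¬ w <:+: z ∧
        1 + 1 * m ≤ cnt M α (fun r => r == p) (0, 0) z) = ∅ := by
      apply Finset.filter_false_of_mem
      rintro z hz ⟨-, hc⟩
      obtain ⟨-, q', hq'⟩ := mem_words.1 hz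
      obtain ⟨u, v, -, -, hu, -⟩ := cnt_first (p := p) hq'
        (k := cnt M α (fun r => r == p) (0, 0) z - 1) (by omega)
      exact hp ⟨u, hu⟩
    rw [this]
    simp

theorem few_low {hh : ℝ} (hpos : 0 < hh) : ∃ η : ℝ, 0 < η ∧ ∃ K : ℕ, ∀ n : ℕ,
    (((words M α n (0, 0)).filter (fun z => (cnt M α (lowv K) (0, 0) z : ℝ) ≤ η * n)).card : ℝ) ≤
      Real.exp (hh / 2 * n) := by
  set lam : ℝ := min (1 / 2) (hh / (4 * (M + 1))) with hlam
  have hM : (0 : ℝ) < M + 1 := by positivity
  have hl0 : 0 < lam := lt_min (by norm_num) (by positivity)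
  have hl1 : lam < 1 := (min_le_left _ _).trans_lt (by norm_num)
  have hl2 : lam * (M + 1) ≤ hh / 4 := by
    calc lam * (M + 1) ≤ hh / (4 * (M + 1)) * (M + 1) :=
          mul_le_mul_of_nonneg_right (min_le_right _ _) hM.le
      _ = hh / 4 := by field_simp
  set Lam : ℝ := -Real.log lam with hLam
  have hLam0 : 0 < Lam := by
    have := Real.log_neg hl0 hl1
    linarith
  set ρ : ℝ := hh / (4 * Lam) with hρ
  have hρ0 : 0 < ρ := by positivity
  obtain ⟨K, hK⟩ := exists_nat_ge (2 / ρ)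
  refine ⟨ρ / 2, by positivity, K, ?_⟩
  intro n
  set S := (words M α n (0, 0)).filter (fun z => (cnt M α (lowv K) (0, 0) z : ℝ) ≤ ρ / 2 * n)
    with hS
  have hn0 : (0 : ℝ) ≤ n := Nat.cast_nonneg n
  have hK1 : (0 : ℝ) < K + 1 := by positivity
  have hK2 : 1 / ((K : ℝ) + 1) ≤ ρ / 2 := by
    rw [div_le_iff₀ hK1]
    have h1 : 2 / ρ ≤ K + 1 := hK.trans (by linarith)
    rw [div_le_iff₀ hρ0] at h1
    linarith
  have h1 : ∀ z ∈ S, Real.exp (-(hh / 4 * n)) ≤ lam ^ np M α (0, 0) z := by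
    intro z hz
    rw [hS, Finset.mem_filter] at hz
    obtain ⟨hz1, hz2⟩ := hz
    obtain ⟨hlen, q', hq'⟩ := mem_words.1 hz1
    have h2 := np_le K z (0, 0) q' hq'
    rw [hlen] at h2
    have h3 : (((K + 1) * np M α (0, 0) z + min q'.1 q'.2 : ℕ) : ℝ) ≤
        ((n + min 0 0 + (K + 1) * cnt M α (lowv K) (0, 0) z : ℕ) : ℝ) := by exact_mod_cast h2
    push_cast at h3
    have h4 : (0 : ℝ) ≤ min (q'.1 : ℝ) (q'.2 : ℝ) := by positivity
    have h5 : (np M α (0, 0) z : ℝ) ≤ ρ * n := by
      have h6 : ((K : ℝ) + 1) * np M α (0, 0) z ≤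
          n + (K + 1) * cnt M α (lowv K) (0, 0) z := by
        have : min (0 : ℝ) 0 = 0 := min_self 0
        rw [this] at h3
        linarith
      have h7 : (np M α (0, 0) z : ℝ) ≤ n / (K + 1) + cnt M α (lowv K) (0, 0) z := by
        rw [← sub_le_iff_le_add, le_div_iff₀ hK1]
        linarith
      have h8 : (n : ℝ) / (K + 1) ≤ ρ / 2 * n := by
        calc (n : ℝ) / (K + 1) = 1 / (K + 1) * n := by ring
          _ ≤ ρ / 2 * n := mul_le_mul_of_nonneg_right hK2 hn0
      linarith
    have h9 : lam = Real.exp (-Lam) := by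
      rw [hLam, neg_neg, Real.exp_log hl0]
    rw [h9, ← Real.exp_nat_mul, Real.exp_le_exp]
    have h10 : (np M α (0, 0) z : ℝ) * Lam ≤ ρ * n * Lam :=
      mul_le_mul_of_nonneg_right h5 hLam0.le
    have h11 : ρ * n * Lam = hh / 4 * n := by
      rw [hρ]; field_simp
    linarith
  have h2 : (S.card : ℝ) * Real.exp (-(hh / 4 * n)) ≤ Real.exp (hh / 4 * n) := by
    calc (S.card : ℝ) * Real.exp (-(hh / 4 * n)) = ∑ z ∈ S, Real.exp (-(hh / 4 * n)) := by
          rw [Finset.sum_const, nsmul_eq_mul]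
      _ ≤ ∑ z ∈ S, lam ^ np M α (0, 0) z := Finset.sum_le_sum h1
      _ ≤ ∑ z ∈ words M α n (0, 0), lam ^ np M α (0, 0) z :=
          Finset.sum_le_sum_of_subset_of_nonneg (Finset.filter_subset _ _)
            (fun z _ _ => by positivity)
      _ ≤ (1 + lam * (M + 1)) ^ n := sum_np hl0.le n (0, 0)
      _ ≤ Real.exp (lam * (M + 1)) ^ n := by
          apply pow_le_pow_left₀ (by positivity)
          linarith [Real.add_one_le_exp (lam * (M + 1))]
      _ ≤ Real.exp (hh / 4) ^ n := by gcongr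
      _ = Real.exp (hh / 4 * n) := by rw [← Real.exp_nat_mul]; ring_nf
  have h3 : Real.exp (-(hh / 4 * n)) * Real.exp (hh / 4 * n) = 1 := by
    rw [← Real.exp_add, Real.exp_eq_one_iff]; ring
  calc (S.card : ℝ) = S.card * Real.exp (-(hh / 4 * n)) * Real.exp (hh / 4 * n) := by
        rw [mul_assoc, h3, mul_one]
    _ ≤ Real.exp (hh / 4 * n) * Real.exp (hh / 4 * n) := by gcongr
    _ = Real.exp (hh / 2 * n) := by rw [← Real.exp_add]; ring_nf

/-- **Core.** A word `w` that is forbidden lowers the number of words. -/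
theorem core (h : Adm M α) (np : NP M α) (tr : Trans M α) {hh : ℝ}
    (hlim : Tendsto (fun n : ℕ =>
      Real.log ((words M α n (0, 0)).card) / n) atTop (𝓝 hh))
    {w : List ℕ} {r : ℕ × ℕ} (hw : run M α (0, 0) w = some r) :
    ∃ n : ℕ, 1 ≤ n ∧ (((words M α n (0, 0)).filter (fun z => ¬ w <:+: z)).card : ℝ) <
      Real.exp (hh * n) := by
  by_contra hcon
  push Not at hcon
  have hpos := h_pos h np tr hlim
  choose l κ hκ0 hκ1 hkey using key h np tr hlim hw
  obtain ⟨η, hη, K, hlow⟩ := few_low (M := M) (α := α) hpos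
  set P := lowset K with hP
  set Lm : ℕ := ∑ p ∈ P, l p + 1 with hLm
  obtain ⟨N₀, hN₀⟩ := exists_nat_ge (((P.card + 1) * Lm : ℝ) / η)
  set N := N₀ + 1 with hNdef
  have hN : ((P.card + 1) * Lm : ℝ) ≤ η * N := by
    rw [div_le_iff₀ hη] at hN₀
    rw [hNdef]
    push_cast
    nlinarith
  have hNpos : (0 : ℝ) < N := by rw [hNdef]; positivity
  -- choice of `δ`
  have hδ : ∀ᶠ δ : ℝ in 𝓝[>] 0, (δ ≤ 1 ∧ 0 < δ) ∧ ∀ p ∈ P, Real.exp (δ * N) * κ p < 1 := by
    refine Filter.Eventually.and (Filter.Eventually.and ?_ ?_) ?_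
    · exact nhdsWithin_le_nhds (Iic_mem_nhds (by norm_num))
    · exact self_mem_nhdsWithin
    · rw [Filter.eventually_all_finset]
      intro p _
      have hc : Tendsto (fun δ : ℝ => Real.exp (δ * N) * κ p) (𝓝[>] 0)
          (𝓝 (Real.exp (0 * N) * κ p)) := by
        apply Tendsto.mono_left _ nhdsWithin_le_nhds
        apply Continuous.tendsto
        fun_prop
      rw [zero_mul, Real.exp_zero, one_mul] at hc
      exact hc.eventually_lt_const (hκ1 p)
  obtain ⟨δ, ⟨hδ1, hδ0⟩, hδκ⟩ := hδ.exists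
  choose C hC0 hC using fun p => hkey p δ hδ0 hδ1
  -- the estimate
  have hest : ∀ j : ℕ, 1 ≤ j → (1 : ℝ) ≤ Real.exp (-(hh / 2 * N)) ^ j +
      ∑ p ∈ P, C p * (Real.exp (δ * N) * κ p) ^ j := by
    intro j hj
    have hj0 : (0 : ℝ) < j := by exact_mod_cast hj
    have hNj : 1 ≤ N * j := Nat.mul_pos (by omega) hj
    have h1 := hcon (N * j) hNj
    have h2 : ((words M α (N * j) (0, 0)).filter (fun z => ¬ w <:+: z)).card ≤
        ((words M α (N * j) (0, 0)).filter (fun z =>
          (cnt M α (lowv K) (0, 0) z : ℝ) ≤ η * (N * j : ℕ))).card +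
        ∑ p ∈ P, ((words M α (N * j) (0, 0)).filter (fun z => ¬ w <:+: z ∧
          1 + l p * j ≤ cnt M α (fun r => r == p) (0, 0) z)).card := by
      refine le_trans (Finset.card_le_card ?_) ((Finset.card_union_le _ _).trans
        (Nat.add_le_add_left Finset.card_biUnion_le _))
      intro z hz
      rw [Finset.mem_filter] at hz
      rw [Finset.mem_union, Finset.mem_filter, Finset.mem_biUnion]
      by_cases hc : (cnt M α (lowv K) (0, 0) z : ℝ) ≤ η * (N * j : ℕ)
      · exact Or.inl ⟨hz.1, hc⟩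
      · right
        rw [not_le] at hc
        by_contra hno
        push Not at hno
        have h3 : ∀ p ∈ P, cnt M α (fun r => r == p) (0, 0) z ≤ Lm * j := by
          intro p hp
          have h4 := hno p hp
          rw [Finset.mem_filter] at h4
          have h5 : cnt M α (fun r => r == p) (0, 0) z < 1 + l p * j := by
            by_contra h6
            exact h4 ⟨hz.1, hz.2, not_lt.1 h6⟩
          have h7 : l p + 1 ≤ Lm := by
            rw [hLm]
            exact Nat.add_le_add_right (Finset.single_le_sum (f := l) (fun _ _ => Nat.zero_le _) hp) 1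
          have h8 : (l p + 1) * j ≤ Lm * j := Nat.mul_le_mul_right j h7
          have h9 : (l p + 1) * j = l p * j + j := by ring
          omega
        have h4 : cnt M α (lowv K) (0, 0) z ≤ P.card * (Lm * j) := by
          rw [cnt_low]
          calc ∑ p ∈ lowset K, cnt M α (fun r => r == p) (0, 0) z ≤ ∑ p ∈ P, Lm * j :=
                Finset.sum_le_sum h3
            _ = P.card * (Lm * j) := by rw [Finset.sum_const, smul_eq_mul]
        have h5 : (cnt M α (lowv K) (0, 0) z : ℝ) ≤ P.card * (Lm * j) := by exact_mod_cast h4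
        push_cast at hc
        have h6 : ((P.card + 1) * Lm : ℝ) * j ≤ η * N * j := mul_le_mul_of_nonneg_right hN hj0.le
        have h7 : (0 : ℝ) ≤ Lm * j := by positivity
        nlinarith
    have h3 : (((words M α (N * j) (0, 0)).filter (fun z => ¬ w <:+: z)).card : ℝ) ≤
        Real.exp (hh / 2 * (N * j : ℕ)) +
        ∑ p ∈ P, C p * Real.exp ((hh + δ) * (N * j : ℕ)) * κ p ^ j := by
      calc _ ≤ (((words M α (N * j) (0, 0)).filter (fun z =>
            (cnt M α (lowv K) (0, 0) z : ℝ) ≤ η * (N * j : ℕ))).card : ℝ) +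
            ∑ p ∈ P, (((words M α (N * j) (0, 0)).filter (fun z => ¬ w <:+: z ∧
            1 + l p * j ≤ cnt M α (fun r => r == p) (0, 0) z)).card : ℝ) := by exact_mod_cast h2
        _ ≤ _ := add_le_add (hlow _) (Finset.sum_le_sum (fun p _ => hC p _ _))
    have h4 := h1.trans h3
    have h5 : 0 < Real.exp (-(hh * (N * j : ℕ))) := Real.exp_pos _
    have h6 := mul_le_mul_of_nonneg_right h4 h5.le
    rw [← Real.exp_add, add_neg_cancel, Real.exp_zero, add_mul, ← Real.exp_add,
      Finset.sum_mul] at h6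
    refine h6.trans (le_of_eq ?_)
    congr 1
    · rw [← Real.exp_nat_mul]
      congr 1
      push_cast
      ring
    · apply Finset.sum_congr rfl
      intro p _
      rw [mul_pow, ← Real.exp_nat_mul]
      have : Real.exp ((hh + δ) * (N * j : ℕ)) * Real.exp (-(hh * (N * j : ℕ))) =
          Real.exp (j * (δ * N)) := by
        rw [← Real.exp_add]
        congr 1
        push_cast
        ring
      rw [← this]
      ring
  have hzero : Tendsto (fun j : ℕ => Real.exp (-(hh / 2 * N)) ^ j +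
      ∑ p ∈ P, C p * (Real.exp (δ * N) * κ p) ^ j) atTop (𝓝 (0 + ∑ p ∈ P, C p * 0)) := by
    apply Tendsto.add
    · apply tendsto_pow_atTop_nhds_zero_of_lt_one (Real.exp_pos _).le
      rw [Real.exp_lt_one_iff]
      have : 0 < hh / 2 * N := by positivity
      linarith
    · apply tendsto_finsetSum
      intro p hp
      apply Tendsto.const_mul
      exact tendsto_pow_atTop_nhds_zero_of_lt_one (mul_nonneg (Real.exp_pos _).le (hκ0 p))
        (hδκ p hp)
  have hge := ge_of_tendsto hzero (eventually_atTop.2 ⟨1, hest⟩)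
  simp at hge
  linarith

end Pool.Agent.H34.QS
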