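import Pool.Agent.H34.Dich

set_option autoImplicit false

namespace Pool.Agent.H34.QS

variable {M : ℕ} {α : ℕ → ℕ}

/-- the symmetric shift of `α` -/
def VN (M : ℕ) (α : ℕ → ℕ) : Set (ℕ → ℕ) :=
  {x | (∀ n, x n ≤ M) ∧ (∀ n j, (∀ i < j, x (n + i) = α i) → x (n + j) ≤ α j) ∧
    ∀ n j, (∀ i < j, x (n + i) = M - α i) → M - α j ≤ x (n + j)}

theorem vn_shift {x : ℕ → ℕ} (hx : x ∈ VN M α) (k : ℕ) : (fun n => x (k + n)) ∈ VN M α := by
  obtain ⟨h1, h2, h3⟩ := hx
  refine ⟨fun n => h1 _, ?_, ?_⟩
  · intro n j hj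
    have := h2 (k + n) j (fun i hi => by rw [Nat.add_assoc]; exact hj i hi)
    rwa [Nat.add_assoc] at this
  · intro n j hj
    have := h3 (k + n) j (fun i hi => by rw [Nat.add_assoc]; exact hj i hi)
    rwa [Nat.add_assoc] at this

theorem vn_refl (hα : ∀ n, α n ≤ M) {x : ℕ → ℕ} (hx : x ∈ VN M α) :
    (fun n => M - x n) ∈ VN M α := by
  obtain ⟨h1, h2, h3⟩ := hx
  refine ⟨fun n => Nat.sub_le _ _, ?_, ?_⟩
  · intro n j hj
    have := h3 n j (fun i hi => by
      have a1 := hj i hi
      have a2 := h1 (n + i)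
      dsimp only at a1
      omega)
    dsimp only
    omega
  · intro n j hj
    have := h2 n j (fun i hi => by
      have a1 := hj i hi
      have a2 := h1 (n + i)
      have a3 := hα i
      dsimp only at a1
      omega)
    dsimp only
    omega

theorem lex_max (hne : (VN M α).Nonempty) :
    ∃ β ∈ VN M α, ∀ z ∈ VN M α, ∀ n, (∀ i < n, z i = β i) → z n ≤ β n := by
  classical
  have hstep : ∀ (n : ℕ) (x : VN M α), ∃ y : VN M α, (∀ i < n, y.1 i = x.1 i) ∧
      ∀ z ∈ VN M α, (∀ i < n, z i = x.1 i) → z n ≤ y.1 n := by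
    intro n x
    have hex : ∃ d, ∃ y : VN M α, (∀ i < n, y.1 i = x.1 i) ∧ M - y.1 n = d :=
      ⟨_, x, fun _ _ => rfl, rfl⟩
    obtain ⟨y, hy1, hy2⟩ := Nat.find_spec hex
    refine ⟨y, hy1, ?_⟩
    intro z hz hzx
    by_contra hc
    have h1 := hz.1 n
    have h2 := y.2.1 n
    exact Nat.find_min hex (m := M - z n) (by omega) ⟨⟨z, hz⟩, hzx, rfl⟩
  choose F hF1 hF2 using hstep
  obtain ⟨x₀, hx₀⟩ := hne
  let X : ℕ → VN M α := fun n => Nat.rec (⟨x₀, hx₀⟩ : VN M α) (fun n x => F n x) n
  have hX : ∀ n, X (n + 1) = F n (X n) := fun n => rfl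
  set β : ℕ → ℕ := fun n => (X (n + 1)).1 n with hβ
  have hag : ∀ n, ∀ i < n, (X n).1 i = β i := by
    intro n
    induction n with
    | zero => intro i hi; omega
    | succ n ih =>
      intro i hi
      rcases Nat.lt_succ_iff_lt_or_eq.1 hi with h1 | h1
      · rw [hX, hF1 n (X n) i h1]
        exact ih i h1
      · subst h1; rfl
  refine ⟨β, ⟨?_, ?_, ?_⟩, ?_⟩
  · intro n
    rw [← hag (n + 1) n (by omega)]
    exact (X (n + 1)).2.1 n
  · intro n j hj
    rw [← hag (n + j + 1) (n + j) (by omega)]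
    apply (X (n + j + 1)).2.2.1 n j
    intro i hi
    rw [hag (n + j + 1) (n + i) (by omega)]
    exact hj i hi
  · intro n j hj
    rw [← hag (n + j + 1) (n + j) (by omega)]
    apply (X (n + j + 1)).2.2.2 n j
    intro i hi
    rw [hag (n + j + 1) (n + i) (by omega)]
    exact hj i hi
  · intro z hz n hn
    exact hF2 n (X n) z hz (fun i hi => by rw [hn i hi, hag n i hi])

theorem vn_eq (hα : ∀ n, α n ≤ M) {β : ℕ → ℕ} (hβ : β ∈ VN M α)
    (hmax : ∀ z ∈ VN M α, ∀ n, (∀ i < n, z i = β i) → z n ≤ β n) : VN M α = VN M β := by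
  have hβM := hβ.1
  ext x
  constructor
  · intro hx
    refine ⟨hx.1, ?_, ?_⟩
    · intro n j hj
      exact hmax _ (vn_shift hx n) j hj
    · intro n j hj
      have h1 := hmax _ (vn_refl hα (vn_shift hx n)) j (by
        intro i hi
        have a1 := hj i hi
        have a2 := hβM i
        omega)
      have a1 := hx.1 (n + j)
      omega
  · rintro ⟨h1, h2, h3⟩
    have hβ0 : ∀ j, (∀ i < j, β i = α i) → β j ≤ α j := by
      intro j hj
      have := hβ.2.1 0 j (by intro i hi; rw [Nat.zero_add]; exact hj i hi)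
      rwa [Nat.zero_add] at this
    refine ⟨h1, ?_, ?_⟩
    · intro n j hj
      have key : ∀ i < j, β i = α i := by
        intro i
        induction i using Nat.strong_induction_on with
        | _ i ih =>
          intro hi
          have b1 := hβ0 i (fun k hk => ih k hk (hk.trans hi))
          have b2 := h2 n i (fun k hk => by rw [hj k (hk.trans hi), ih k hk (hk.trans hi)])
          rw [hj i hi] at b2
          omega
      exact (h2 n j (fun i hi => by rw [hj i hi, key i hi])).trans (hβ0 j key)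
    · intro n j hj
      have key : ∀ i < j, β i = α i := by
        intro i
        induction i using Nat.strong_induction_on with
        | _ i ih =>
          intro hi
          have b1 := hβ0 i (fun k hk => ih k hk (hk.trans hi))
          have b2 := h3 n i (fun k hk => by rw [hj k (hk.trans hi), ih k hk (hk.trans hi)])
          rw [hj i hi] at b2
          have := hα i
          omega
      have b1 := h3 n j (fun i hi => by rw [hj i hi, key i hi])
      have b2 := hβ0 j key
      omega

/-! ### the automaton reads exactly the prefixes of the points of the shift -/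

theorem pre_add_one (x : ℕ → ℕ) (n : ℕ) : pre x (n + 1) = pre x n ++ [x n] := pre_succ n

theorem vn_run (hα : ∀ n, α n ≤ M) {x : ℕ → ℕ} (hx : x ∈ VN M α) (n : ℕ) :
    ∃ q, run M α (0, 0) (pre x n) = some q ∧ q.1 ≤ n ∧ q.2 ≤ n ∧
      (∀ i < q.1, x (n - q.1 + i) = α i) ∧ ∀ i < q.2, x (n - q.2 + i) = M - α i := by
  obtain ⟨h1, h2, h3⟩ := hx
  induction n with
  | zero =>
    exact ⟨(0, 0), rfl, le_rfl, le_rfl, fun i hi => absurd hi (by simp), fun i hi => absurd hi (by simp)⟩
  | succ n ih =>
    obtain ⟨q, a1, a2, a3, a4, a5⟩ := ih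
    have b1 := h2 (n - q.1) q.1 a4
    rw [Nat.sub_add_cancel a2] at b1
    have b2 := h3 (n - q.2) q.2 a5
    rw [Nat.sub_add_cancel a3] at b2
    have b3 := h1 n
    have b4 := hα q.2
    have hs := step_of (M := M) (α := α) (q := q) (a := x n) b1 b3 (by omega)
    refine ⟨_, by rw [pre_add_one]; exact run_append_of a1 (run_single hs), ?_, ?_, ?_, ?_⟩
    · dsimp only; split_ifs <;> omega
    · dsimp only; split_ifs <;> omega
    · dsimp only
      split_ifs with hc
      · intro i hi
        have e1 : n + 1 - (q.1 + 1) + i = n - q.1 + i := by omega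
        rw [e1]
        rcases Nat.lt_succ_iff_lt_or_eq.1 hi with h4 | h4
        · exact a4 i h4
        · rw [h4, Nat.sub_add_cancel a2, hc]
      · intro i hi; omega
    · dsimp only
      split_ifs with hc
      · intro i hi
        have e1 : n + 1 - (q.2 + 1) + i = n - q.2 + i := by omega
        rw [e1]
        rcases Nat.lt_succ_iff_lt_or_eq.1 hi with h4 | h4
        · exact a5 i h4
        · rw [h4, Nat.sub_add_cancel a3]; omega
      · intro i hi; omega

/-- a segment of a sequence -/
def seg (x : ℕ → ℕ) (k n : ℕ) : List ℕ := (List.range n).map fun i => x (k + i)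

@[simp] theorem length_seg (x : ℕ → ℕ) (k n : ℕ) : (seg x k n).length = n := by simp [seg]

theorem seg_zero (x : ℕ → ℕ) (n : ℕ) : seg x 0 n = pre x n := by
  unfold seg pre
  congr 1
  funext i
  rw [Nat.zero_add]

theorem seg_add (x : ℕ → ℕ) (k m n : ℕ) : seg x k (m + n) = seg x k m ++ seg x (k + m) n := by
  unfold seg
  rw [List.range_add, List.map_append, List.map_map]
  congr 1
  apply List.map_congr_left
  intro i _
  simp only [Function.comp_apply]
  rw [Nat.add_assoc]

theorem seg_get (x : ℕ → ℕ) (k n i : ℕ) (hi : i < (seg x k n).length) :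
    (seg x k n)[i] = x (k + i) := by
  simp [seg]

theorem seg_congr {x y : ℕ → ℕ} {k l n : ℕ} (h : ∀ i < n, x (k + i) = y (l + i)) :
    seg x k n = seg y l n := by
  unfold seg
  apply List.map_congr_left
  intro i hi
  exact h i (List.mem_range.1 hi)

theorem seg_inj {x y : ℕ → ℕ} {k l n : ℕ} (h : seg x k n = seg y l n) :
    ∀ i < n, x (k + i) = y (l + i) := by
  intro i hi
  have h1 := seg_get x k n i (by simpa using hi)
  have h2 := seg_get y l n i (by simpa using hi)
  rw [← h1, ← h2]
  simp only [h]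

theorem run_vn (h : Adm M α) {x : ℕ → ℕ}
    (hx : ∀ n, ∃ q, run M α (0, 0) (pre x n) = some q) : x ∈ VN M α := by
  refine ⟨?_, ?_, ?_⟩
  · intro n
    obtain ⟨q, hq⟩ := hx (n + 1)
    apply digit_le hq
    rw [pre_add_one]
    simp
  · intro n j hj
    obtain ⟨q, hq⟩ := hx (n + j + 1)
    rw [pre_add_one] at hq
    obtain ⟨q₁, b1, b2⟩ := run_append_some hq
    obtain ⟨q₂, b3, b4⟩ := run_cons_some b2
    rw [← seg_zero, seg_add] at b1
    obtain ⟨q₃, b5, b6⟩ := run_append_some b1
    have e1 : seg x (0 + n) j = pre α j := by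
      rw [← seg_zero]
      apply seg_congr
      intro i hi
      rw [Nat.zero_add, Nat.zero_add]
      exact hj i hi
    rw [e1] at b6
    have c1 := ov_le h (run_pre h b6)
    exact (step_some b3).1.trans c1
  · intro n j hj
    obtain ⟨q, hq⟩ := hx (n + j + 1)
    rw [pre_add_one] at hq
    obtain ⟨q₁, b1, b2⟩ := run_append_some hq
    obtain ⟨q₂, b3, b4⟩ := run_cons_some b2
    rw [← seg_zero, seg_add] at b1
    obtain ⟨q₃, b5, b6⟩ := run_append_some b1
    have e1 : seg x (0 + n) j = bpre M α j := by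
      unfold seg bpre
      apply List.map_congr_left
      intro i hi
      rw [Nat.zero_add]
      exact hj i (List.mem_range.1 hi)
    rw [e1] at b6
    have c1 := ov_le h (run_bpre h b6)
    have c2 := (step_some b3).2.2.1
    omega

/-- the words that occur in the points of `X` -/
def LN (X : Set (ℕ → ℕ)) : Set (List ℕ) := {z | ∃ x ∈ X, ∃ k, z = seg x k z.length}

theorem seg_mem_LN {X : Set (ℕ → ℕ)} {x : ℕ → ℕ} (hx : x ∈ X) (k n : ℕ) : seg x k n ∈ LN X :=
  ⟨x, hx, k, by rw [length_seg]⟩

theorem LN_mono {X Y : Set (ℕ → ℕ)} (h : X ⊆ Y) : LN X ⊆ LN Y := by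
  rintro z ⟨x, hx, k, hk⟩
  exact ⟨x, h hx, k, hk⟩

theorem LN_infix {X : Set (ℕ → ℕ)} {u z : List ℕ} (hz : z ∈ LN X) (hu : u <:+: z) : u ∈ LN X := by
  obtain ⟨x, hx, k, hk⟩ := hz
  obtain ⟨s, t, rfl⟩ := hu
  rw [List.length_append, List.length_append, seg_add, seg_add] at hk
  have h1 := (List.append_inj hk (by simp)).1
  have h2 := (List.append_inj h1 (by simp)).2
  exact ⟨x, hx, _, h2⟩

theorem pre_stream (z : List ℕ) (y : ℕ → ℕ) (n : ℕ) :
    pre (fun i => if hi : i < z.length then z[i] else y (i - z.length)) (z.length + n) =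
      z ++ pre y n := by
  apply List.ext_getElem
  · simp
  · intro i h1 h2
    rw [List.getElem_append]
    split_ifs with hi
    · simp [pre, hi]
    · simp [pre, hi]

theorem run_main (h : Adm M α) (s n : ℕ) :
    run M α (st M α true s) (seg α s n) = some (st M α true (s + n)) := by
  induction n with
  | zero => rfl
  | succ n ih =>
    rw [seg_add]
    exact run_append_of ih (run_single (step_main h (s + n)))

theorem run_main' (h : Adm M α) (s n : ℕ) :
    run M α (st M α false s) (refl M (seg α s n)) = some (st M α false (s + n)) := by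
  have := run_swap (run_main h s n)
  rwa [st_swap, st_swap] at this

theorem prefix_of_read (h : Adm M α) {z : List ℕ} {q : ℕ × ℕ} (hz : run M α (0, 0) z = some q) :
    ∃ x ∈ VN M α, pre x z.length = z := by
  obtain ⟨e, s, rfl⟩ := run_inv0 h hz
  have key : ∀ y : ℕ → ℕ, (∀ n, ∃ q', run M α (st M α e s) (pre y n) = some q') →
      ∃ x ∈ VN M α, pre x z.length = z := by
    intro y hy
    refine ⟨fun i => if hi : i < z.length then z[i] else y (i - z.length), run_vn h ?_, ?_⟩
    · intro n
      obtain ⟨q', hq'⟩ := hy n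
      have h1 : ∃ q', run M α (0, 0) (pre (fun i => if hi : i < z.length then z[i]
          else y (i - z.length)) (n + z.length)) = some q' := by
        rw [Nat.add_comm, pre_stream]
        exact ⟨q', run_append_of hz hq'⟩
      obtain ⟨q₂, h2⟩ := h1
      rw [← seg_zero, seg_add, seg_zero] at h2
      obtain ⟨q₃, h3, -⟩ := run_append_some h2
      exact ⟨q₃, h3⟩
    · have := pre_stream z y 0
      rw [Nat.add_zero] at this
      rw [this]
      simp [pre]
  cases e
  · apply key (fun i => M - α (s + i))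
    intro n
    refine ⟨st M α false (s + n), ?_⟩
    have e1 : pre (fun i => M - α (s + i)) n = refl M (seg α s n) := by
      unfold pre refl seg
      rw [List.map_map]
      rfl
    rw [e1]
    exact run_main' h s n
  · apply key (fun i => α (s + i))
    intro n
    exact ⟨_, run_main h s n⟩

theorem ln_vn (h : Adm M α) {z : List ℕ} :
    z ∈ LN (VN M α) ↔ ∃ q, run M α (0, 0) z = some q := by
  constructor
  · rintro ⟨x, hx, k, hk⟩
    obtain ⟨q, h1, -⟩ := vn_run h.le hx (k + z.length)
    rw [← seg_zero, seg_add, Nat.zero_add, ← hk] at h1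
    obtain ⟨q₁, -, b2⟩ := run_append_some h1
    exact run_zero_of h b2
  · rintro ⟨q, hq⟩
    obtain ⟨x, hx, h1⟩ := prefix_of_read h hq
    exact ⟨x, hx, 0, by rw [seg_zero, h1]⟩

/-- transitivity -/
def TransN (X : Set (ℕ → ℕ)) : Prop := ∀ u ∈ LN X, ∀ w ∈ LN X, ∃ v, u ++ v ++ w ∈ LN X

theorem trans_of (h : Adm M α) (ht : TransN (VN M α)) : Trans M α := by
  intro u w q₁ q₂ h1 h2
  obtain ⟨v, hv⟩ := ht u ((ln_vn h).2 ⟨_, h1⟩) w ((ln_vn h).2 ⟨_, h2⟩)
  obtain ⟨q₃, h3⟩ := (ln_vn h).1 hv
  exact ⟨v, q₃, h3⟩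

end Pool.Agent.H34.QS
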