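import Pool.Agent.H34.Count

set_option autoImplicit false

open scoped ENNReal

namespace Pool.Agent.H34.QS

variable {M : ℕ} {α : ℕ → ℕ}

/-- the words of length `n` that can be read from `q` -/
def words (M : ℕ) (α : ℕ → ℕ) : ℕ → ℕ × ℕ → Finset (List ℕ)
  | 0, _ => {[]}
  | n + 1, q => (Finset.range (M + 1)).biUnion fun a =>
    match step M α q a with
    | none => ∅
    | some q₁ => (words M α n q₁).image fun z => a :: z

theorem mem_words {n : ℕ} {q : ℕ × ℕ} {z : List ℕ} :
    z ∈ words M α n q ↔ z.length = n ∧ ∃ q', run M α q z = some q' := by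
  induction n generalizing q z with
  | zero =>
    rw [words, Finset.mem_singleton, List.length_eq_zero_iff]
    constructor
    · rintro rfl
      exact ⟨rfl, q, rfl⟩
    · exact fun h => h.1
  | succ n ih =>
    rw [words, Finset.mem_biUnion]
    constructor
    · rintro ⟨a, ha, hz⟩
      cases hs : step M α q a with
      | none => rw [hs] at hz; simp at hz
      | some q₁ =>
        rw [hs] at hz
        simp only [Finset.mem_image] at hz
        obtain ⟨z', hz', rfl⟩ := hz
        obtain ⟨h1, q', h2⟩ := ih.1 hz'
        exact ⟨by simp [h1], q', run_cons_of hs h2⟩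
    · rintro ⟨h1, q', h2⟩
      cases z with
      | nil => simp at h1
      | cons a z =>
        obtain ⟨q₁, b1, b2⟩ := run_cons_some h2
        refine ⟨a, Finset.mem_range.2 (by have := (step_some b1).2.1; omega), ?_⟩
        rw [b1]
        simp only [Finset.mem_image]
        exact ⟨z, ih.2 ⟨by simpa using h1, q', b2⟩, rfl⟩

/-- the digit predicted by the longer match -/
def prd (M : ℕ) (α : ℕ → ℕ) (q : ℕ × ℕ) : ℕ := if q.2 ≤ q.1 then α q.1 else M - α q.2

/-- the number of digits that are not predicted -/
def np (M : ℕ) (α : ℕ → ℕ) : ℕ × ℕ → List ℕ → ℕ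
  | _, [] => 0
  | q, a :: z =>
    match step M α q a with
    | none => 0
    | some q₁ => (if a = prd M α q then 0 else 1) + np M α q₁ z

theorem np_cons {q q₁ : ℕ × ℕ} {a : ℕ} {z : List ℕ} (h : step M α q a = some q₁) :
    np M α q (a :: z) = (if a = prd M α q then 0 else 1) + np M α q₁ z := by
  rw [np, h]

theorem sum_np {lam : ℝ} (h0 : 0 ≤ lam) (n : ℕ) (q : ℕ × ℕ) :
    ∑ z ∈ words M α n q, lam ^ np M α q z ≤ (1 + lam * (M + 1)) ^ n := by
  induction n generalizing q with
  | zero => simp [words, np]
  | succ n ih =>
    have hpos : 0 ≤ (1 + lam * (M + 1)) ^ n := by positivity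
    rw [words]
    rw [Finset.sum_biUnion]
    swap
    · intro a _ b _ hab
      refine Finset.disjoint_left.2 (fun z hz hz' => hab ?_)
      have key : ∀ a, z ∈ (match step M α q a with
          | none => ∅
          | some q₁ => (words M α n q₁).image fun z => a :: z) → z.head? = some a := by
        intro a hz
        cases hs : step M α q a with
        | none => rw [hs] at hz; simp at hz
        | some q₁ =>
          rw [hs] at hz
          simp only [Finset.mem_image] at hz
          obtain ⟨z', -, rfl⟩ := hz
          rfl
      have h1 := key a hz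
      rw [key b hz', Option.some.injEq] at h1
      exact h1.symm
    have h1 : ∀ a ∈ Finset.range (M + 1),
        ∑ z ∈ (match step M α q a with
          | none => ∅
          | some q₁ => (words M α n q₁).image fun z => a :: z), lam ^ np M α q z ≤
        (if a = prd M α q then 1 else lam) * (1 + lam * (M + 1)) ^ n := by
      intro a _
      cases hs : step M α q a with
      | none =>
        simp only [Finset.sum_empty]
        split_ifs <;> positivity
      | some q₁ =>
        simp only
        rw [Finset.sum_image (by intro x _ y _ hxy; simpa using hxy)]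
        have h2 : ∑ z ∈ words M α n q₁, lam ^ np M α q (a :: z) =
            (if a = prd M α q then 1 else lam) * ∑ z ∈ words M α n q₁, lam ^ np M α q₁ z := by
          rw [Finset.mul_sum]
          apply Finset.sum_congr rfl
          intro z _
          rw [np_cons hs, pow_add]
          split_ifs <;> simp
        rw [h2]
        exact mul_le_mul_of_nonneg_left (ih q₁) (by split_ifs <;> positivity)
    refine (Finset.sum_le_sum h1).trans ?_
    rw [← Finset.sum_mul, pow_succ, mul_comm]
    apply mul_le_mul_of_nonneg_left _ hpos
    have h3 : ∀ a ∈ Finset.range (M + 1), (if a = prd M α q then (1 : ℝ) else lam) ≤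
        (if a = prd M α q then (1 : ℝ) else 0) + lam := by
      intro a _
      split_ifs <;> linarith
    refine (Finset.sum_le_sum h3).trans ?_
    rw [Finset.sum_add_distrib, Finset.sum_const, Finset.card_range, nsmul_eq_mul]
    have h4 : ∑ a ∈ Finset.range (M + 1), (if a = prd M α q then (1 : ℝ) else 0) ≤ 1 := by
      rw [Finset.sum_ite_eq']
      split_ifs <;> norm_num
    push_cast
    linarith

/-- low vertices -/
def lowv (K : ℕ) (q : ℕ × ℕ) : Bool := decide (min q.1 q.2 = 0 ∧ max q.1 q.2 ≤ K)

theorem np_le (K : ℕ) : ∀ (z : List ℕ) (q q' : ℕ × ℕ), run M α q z = some q' →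
    (K + 1) * np M α q z + min q'.1 q'.2 ≤
      z.length + min q.1 q.2 + (K + 1) * cnt M α (lowv K) q z := by
  intro z
  induction z with
  | nil =>
    intro q q' h
    rw [run_nil, Option.some.injEq] at h
    subst h
    simp [np, cnt]
  | cons a z ih =>
    intro q q' h
    obtain ⟨q₁, b1, b2⟩ := run_cons_some h
    have h1 := ih q₁ q' b2
    rw [np_cons b1, cnt_cons b1, List.length_cons]
    obtain ⟨a1, a2, a3, a4, a5⟩ := step_some b1
    by_cases hp : a = prd M α q
    · rw [if_pos hp]
      have h2 : min q₁.1 q₁.2 ≤ min q.1 q.2 + 1 := by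
        rw [a4, a5]
        split_ifs <;> omega
      have h3 : (K + 1) * cnt M α (lowv K) q₁ z ≤
          (K + 1) * ((if lowv K q₁ = true then 1 else 0) + cnt M α (lowv K) q₁ z) :=
        Nat.mul_le_mul_left _ (by omega)
      rw [Nat.zero_add]
      omega
    · rw [if_neg hp]
      have h2 : min q₁.1 q₁.2 = 0 ∧ max q₁.1 q₁.2 ≤ min q.1 q.2 + 1 := by
        unfold prd at hp
        split_ifs at hp with hle
        · rw [if_neg hp] at a4
          rw [a4, a5]
          split_ifs <;> omega
        · have hp' : M - a ≠ α q.2 := by
            intro hc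
            apply hp
            omega
          rw [if_neg hp'] at a5
          rw [a4, a5]
          split_ifs <;> omega
      by_cases hl : lowv K q₁ = true
      · rw [if_pos hl]
        have e1 : (K + 1) * (1 + np M α q₁ z) = (K + 1) + (K + 1) * np M α q₁ z := by ring
        have e2 : (K + 1) * (1 + cnt M α (lowv K) q₁ z) =
          (K + 1) + (K + 1) * cnt M α (lowv K) q₁ z := by ring
        rw [e1, e2]
        omega
      · rw [if_neg hl]
        have h3 : K < max q₁.1 q₁.2 := by
          by_contra hc
          apply hl
          unfold lowv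
          rw [decide_eq_true_eq]
          exact ⟨h2.1, by omega⟩
        have e1 : (K + 1) * (1 + np M α q₁ z) = (K + 1) + (K + 1) * np M α q₁ z := by ring
        rw [e1, Nat.zero_add]
        omega

/-- the low vertices as a finite set -/
def lowset (K : ℕ) : Finset (ℕ × ℕ) :=
  (Finset.range (K + 1) ×ˢ Finset.range (K + 1)).filter fun q => lowv K q = true

theorem cnt_low {K : ℕ} (z : List ℕ) (q : ℕ × ℕ) :
    cnt M α (lowv K) q z = ∑ p ∈ lowset K, cnt M α (fun r => r == p) q z := by
  induction z generalizing q with
  | nil => simp [cnt]
  | cons a z ih =>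
    cases hs : step M α q a with
    | none => simp [cnt, hs]
    | some q₁ =>
      rw [cnt_cons hs, ih, Finset.sum_congr rfl (fun p _ => cnt_cons (P := fun r => r == p) hs),
        Finset.sum_add_distrib]
      congr 1
      have h1 : ∀ p, (if (q₁ == p) = true then 1 else 0) = if q₁ = p then 1 else 0 := by
        intro p; simp
      simp_rw [h1]
      rw [Finset.sum_ite_eq]
      congr 1
      apply propext
      unfold lowset
      rw [Finset.mem_filter]
      constructor
      · intro hl
        refine ⟨?_, hl⟩
        unfold lowv at hl
        rw [decide_eq_true_eq] at hl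
        rw [Finset.mem_product, Finset.mem_range, Finset.mem_range]
        omega
      · exact fun hl => hl.2

end Pool.Agent.H34.QS
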