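import Pool.Agent.H34.Gap

set_option autoImplicit false

open Filter Topology

namespace Pool.Agent.H34.QS

variable {M : ℕ} {α : ℕ → ℕ}

/-- the number of words of length `n` -/
noncomputable def cntN (X : Set (ℕ → ℕ)) (n : ℕ) : ℕ := Set.ncard {z | z.length = n ∧ z ∈ LN X}

theorem fin_words {X : Set (ℕ → ℕ)} (hX : ∀ x ∈ X, ∀ n, x n ≤ M) (n : ℕ) :
    Set.Finite {z | z.length = n ∧ z ∈ LN X} := by
  apply (short_finite M n).subset
  rintro z ⟨hz, x, hx, k, hk⟩
  refine ⟨hz.le, ?_⟩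
  intro a ha
  rw [hk] at ha
  unfold seg at ha
  rw [List.mem_map] at ha
  obtain ⟨i, -, rfl⟩ := ha
  exact hX x hx _

theorem cntN_pos {X : Set (ℕ → ℕ)} (hX : ∀ x ∈ X, ∀ n, x n ≤ M) (hne : X.Nonempty) (n : ℕ) :
    0 < cntN X n := by
  obtain ⟨x, hx⟩ := hne
  unfold cntN
  rw [Set.ncard_pos (fin_words hX n)]
  exact ⟨seg x 0 n, by simp, seg_mem_LN hx 0 n⟩

theorem cntN_mul {X : Set (ℕ → ℕ)} (hX : ∀ x ∈ X, ∀ n, x n ≤ M) (m n : ℕ) :
    cntN X (m + n) ≤ cntN X m * cntN X n := by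
  unfold cntN
  rw [← Set.ncard_prod]
  refine Set.ncard_le_ncard_of_injOn (fun z => (z.take m, z.drop m)) ?_ ?_
    ((fin_words hX m).prod (fin_words hX n))
  · rintro z ⟨hz, hz'⟩
    refine ⟨⟨by rw [List.length_take]; omega, LN_infix hz' (List.take_prefix _ _).isInfix⟩,
      ⟨by rw [List.length_drop]; omega, LN_infix hz' (List.drop_suffix _ _).isInfix⟩⟩
  · intro a _ b _ hab
    have h1 : a.take m = b.take m := congrArg Prod.fst hab
    have h2 : a.drop m = b.drop m := congrArg Prod.snd hab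
    rw [← List.take_append_drop m a, ← List.take_append_drop m b, h1, h2]

theorem lim_exists {X : Set (ℕ → ℕ)} (hX : ∀ x ∈ X, ∀ n, x n ≤ M) (hne : X.Nonempty) :
    ∃ a : ℝ, Tendsto (fun n : ℕ => Real.log (cntN X n) / n) atTop (𝓝 a) ∧
      ∀ n : ℕ, 1 ≤ n → a ≤ Real.log (cntN X n) / n := by
  have hsub : Subadditive (fun n : ℕ => Real.log (cntN X n)) := by
    intro m n
    have h1 : (0 : ℝ) < cntN X m := by exact_mod_cast cntN_pos hX hne m
    have h2 : (0 : ℝ) < cntN X n := by exact_mod_cast cntN_pos hX hne n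
    have h3 : (0 : ℝ) < cntN X (m + n) := by exact_mod_cast cntN_pos hX hne (m + n)
    rw [← Real.log_mul h1.ne' h2.ne']
    apply Real.log_le_log h3
    exact_mod_cast cntN_mul hX m n
  have hb : BddBelow (Set.range fun n : ℕ => Real.log (cntN X n) / n) := by
    refine ⟨0, ?_⟩
    rintro _ ⟨n, rfl⟩
    have h1 : (1 : ℝ) ≤ cntN X n := by exact_mod_cast cntN_pos hX hne n
    have := Real.log_nonneg h1
    positivity
  exact ⟨hsub.lim, hsub.tendsto_lim hb, fun n hn => hsub.lim_le_div hb (by omega)⟩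

theorem cntN_vn (h : Adm M α) (n : ℕ) : cntN (VN M α) n = (words M α n (0, 0)).card := by
  unfold cntN
  rw [← Set.ncard_coe_finset]
  congr 1
  ext z
  rw [Set.mem_ofPred_eq, ln_vn h, Finset.mem_coe, mem_words]

theorem iter_mem {X : Set (ℕ → ℕ)} (hinv : ∀ x ∈ X, (fun n => x (n + 1)) ∈ X) {x : ℕ → ℕ}
    (hx : x ∈ X) (k : ℕ) : (fun n => x (k + n)) ∈ X := by
  induction k with
  | zero => simpa using hx
  | succ k ih =>
    have := hinv _ ih
    refine (congrArg (· ∈ X) ?_).mp this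
    funext n
    congr 1
    omega

/-- the case of a non-periodic `α` -/
theorem main_np (h : Adm M α) (np : NP M α) (ht : TransN (VN M α)) {X : Set (ℕ → ℕ)}
    (hX : X ⊆ VN M α) (hne : X.Nonempty) (hinv : ∀ x ∈ X, (fun n => x (n + 1)) ∈ X)
    {x₀ : ℕ → ℕ} (hx₀ : x₀ ∈ VN M α) {n₀ : ℕ} (hsep : ∀ y ∈ X, ∃ i < n₀, y i ≠ x₀ i) :
    ∃ a b : ℝ, Tendsto (fun n : ℕ => Real.log (cntN X n) / n) atTop (𝓝 a) ∧
      Tendsto (fun n : ℕ => Real.log (cntN (VN M α) n) / n) atTop (𝓝 b) ∧ a < b := by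
  have hXM : ∀ x ∈ X, ∀ n, x n ≤ M := fun x hx n => (hX hx).1 n
  obtain ⟨a, ha1, ha2⟩ := lim_exists hXM hne
  obtain ⟨b, hb1, -⟩ := lim_exists (M := M) (X := VN M α) (fun x hx n => hx.1 n) ⟨x₀, hx₀⟩
  refine ⟨a, b, ha1, hb1, ?_⟩
  have hlim : Tendsto (fun n : ℕ => Real.log ((words M α n (0, 0)).card) / n) atTop (𝓝 b) := by
    refine hb1.congr ?_
    intro n
    rw [cntN_vn h]
  obtain ⟨r, hr, -⟩ := vn_run h.le hx₀ n₀
  obtain ⟨n, hn1, hn2⟩ := core h np (trans_of h ht) hlim hr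
  have hle : cntN X n ≤ ((words M α n (0, 0)).filter (fun z => ¬ pre x₀ n₀ <:+: z)).card := by
    unfold cntN
    rw [← Set.ncard_coe_finset]
    apply Set.ncard_le_ncard
    · rintro z ⟨hz1, hz2⟩
      rw [Finset.mem_coe, Finset.mem_filter, mem_words]
      refine ⟨⟨hz1, (ln_vn h).1 (LN_mono hX hz2)⟩, ?_⟩
      intro hc
      obtain ⟨x, hx, k, hk⟩ := LN_infix hz2 hc
      rw [← seg_zero, length_seg] at hk
      obtain ⟨i, hi, hne⟩ := hsep _ (iter_mem hinv hx k)
      apply hne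
      have := seg_inj hk i hi
      rw [Nat.zero_add] at this
      exact this.symm
    · exact Finset.finite_toSet _
  have h1 : (0 : ℝ) < cntN X n := by exact_mod_cast cntN_pos hXM hne n
  have h2 : (cntN X n : ℝ) < Real.exp (b * n) := lt_of_le_of_lt (by exact_mod_cast hle) hn2
  have h3 : Real.log (cntN X n) < b * n := (Real.log_lt_iff_lt_exp h1).2 h2
  have h4 : (0 : ℝ) < n := by exact_mod_cast hn1
  exact (ha2 n hn1).trans_lt ((div_lt_iff₀ h4).2 h3)

/-- the periodic case: there is only one orbit -/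
theorem main_per (hα : α ∈ VN M α) {m : ℕ} (hm : 1 ≤ m)
    (hp : ∀ i, α (m + i) = M - α i) (ht : TransN (VN M α)) {x : ℕ → ℕ} (hx : x ∈ VN M α) :
    ∃ k < 2 * m, ∀ i, x i = α (k + i) := by
  have huniq : ∀ y ∈ VN M α, (∀ i < m, y i = α i) → ∀ i, y i = α i := by
    intro y hy hyi i
    induction i using Nat.strong_induction_on with
    | _ i ih =>
      rcases Nat.lt_or_ge i m with h1 | h1
      · exact hyi i h1
      · obtain ⟨j, rfl⟩ := Nat.exists_eq_add_of_le h1
        have h2 := hy.2.1 0 (m + j) (by intro i hi; rw [Nat.zero_add]; exact ih i hi)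
        rw [Nat.zero_add] at h2
        have h3 := hy.2.2 m j (by intro i hi; rw [ih (m + i) (by omega), hp])
        rw [hp] at h2 ⊢
        omega
  have hper : ∀ k i, α (k + i) = α (k % (2 * m) + i) := by
    have h1 : ∀ i, α (2 * m + i) = α i := by
      intro i
      have e : 2 * m + i = m + (m + i) := by ring
      rw [e, hp, hp]
      have := hα.1 i
      omega
    have h2 : ∀ t i, α (2 * m * t + i) = α i := by
      intro t
      induction t with
      | zero => intro i; simp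
      | succ t ih =>
        intro i
        have e : 2 * m * (t + 1) + i = 2 * m + (2 * m * t + i) := by ring
        rw [e, h1, ih]
    intro k i
    conv_lhs => rw [← Nat.div_add_mod k (2 * m), Nat.add_assoc, h2]
  have hocc : ∀ n, ∃ k < 2 * m, ∀ i < n, x i = α (k + i) := by
    intro n
    obtain ⟨v, y, hy, k, hk⟩ := ht (pre α m) (by rw [← seg_zero]; exact seg_mem_LN hα 0 m) (pre x n)
      (by rw [← seg_zero]; exact seg_mem_LN hx 0 n)
    rw [List.length_append, List.length_append, length_pre, length_pre, seg_add, seg_add] at hk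
    obtain ⟨h1, h2⟩ := List.append_inj hk (by simp)
    obtain ⟨h3, -⟩ := List.append_inj h1 (by simp)
    rw [← seg_zero] at h2 h3
    have h4 := huniq _ (vn_shift hy k) (fun i hi => by
      have := seg_inj h3 i hi
      rw [Nat.zero_add] at this
      exact this.symm)
    refine ⟨(m + v.length) % (2 * m), Nat.mod_lt _ (by omega), ?_⟩
    intro i hi
    have h5 := seg_inj h2 i hi
    rw [Nat.zero_add] at h5
    have h6 := h4 (m + v.length + i)
    rw [← hper, ← h6, h5]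
    congr 1
    omega
  by_contra hcon
  push Not at hcon
  choose! f hf using hcon
  obtain ⟨k, hk, hki⟩ := hocc ((Finset.range (2 * m)).sup f + 1)
  exact hf k hk (hki (f k) (Nat.lt_succ_of_le (Finset.le_sup (Finset.mem_range.2 hk))))

theorem mainN (hα : ∀ n, α n ≤ M) (ht : TransN (VN M α)) {X : Set (ℕ → ℕ)}
    (hX : X ⊆ VN M α) (hne : X.Nonempty) (hinv : ∀ x ∈ X, (fun n => x (n + 1)) ∈ X)
    {x₀ : ℕ → ℕ} (hx₀ : x₀ ∈ VN M α) {n₀ : ℕ} (hsep : ∀ y ∈ X, ∃ i < n₀, y i ≠ x₀ i) :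
    ∃ a b : ℝ, Tendsto (fun n : ℕ => Real.log (cntN X n) / n) atTop (𝓝 a) ∧
      Tendsto (fun n : ℕ => Real.log (cntN (VN M α) n) / n) atTop (𝓝 b) ∧ a < b := by
  obtain ⟨β, hβ, hmax⟩ := lex_max ⟨x₀, hx₀⟩
  have hV := vn_eq hα hβ hmax
  rw [hV] at ht hX hβ hx₀ ⊢
  clear hV hmax hα
  obtain ⟨y, hy⟩ := hne
  by_cases h0 : M - β 0 < β 0
  · have h : Adm M β := ⟨hβ.1, hβ.2.1, hβ.2.2, h0⟩
    by_cases np : NP M β
    · exact main_np h np ht hX ⟨y, hy⟩ hinv hx₀ hsep
    · exfalso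
      unfold NP at np
      push Not at np
      obtain ⟨m, hm, hp⟩ := np
      obtain ⟨k, hk, hyk⟩ := main_per hβ hm hp ht (hX hy)
      obtain ⟨k₀, hk₀, hxk⟩ := main_per hβ hm hp ht hx₀
      obtain ⟨i, -, hi⟩ := hsep _ (iter_mem hinv hy (2 * m - k + k₀))
      apply hi
      rw [hyk, hxk]
      have e : k + (2 * m - k + k₀ + i) = m + (m + (k₀ + i)) := by omega
      rw [e, hp, hp]
      have := hβ.1 (k₀ + i)
      omega
  · exfalso
    obtain ⟨i, -, hi⟩ := hsep y hy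
    apply hi
    have h1 := (hX hy).2.1 i 0 (by intro i hi; omega)
    have h2 := (hX hy).2.2 i 0 (by intro i hi; omega)
    have h3 := hx₀.2.1 i 0 (by intro i hi; omega)
    have h4 := hx₀.2.2 i 0 (by intro i hi; omega)
    rw [Nat.add_zero] at h1 h2 h3 h4
    omega

end Pool.Agent.H34.QS
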