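import Pool.Agent.H34.Aut

set_option autoImplicit false

namespace Pool.Agent.H34.QS

variable {M : ℕ} {α : ℕ → ℕ}

/-- the reflection of `α` is not a shift of `α` -/
def NP (M : ℕ) (α : ℕ → ℕ) : Prop := ∀ m, 1 ≤ m → ¬ ∀ i, α (m + i) = M - α i

theorem qle (h : Adm M α) {m : ℕ} (hm : 1 ≤ m) (hi : ∀ i < m, α (m + i) = M - α i) :
    ∀ i, α (m + i) = M - α i := by
  intro i
  induction i using Nat.strong_induction_on with
  | _ i ih =>
    rcases Nat.lt_or_ge i m with h1 | h1
    · exact hi i h1
    · have h2 := h.lo m i (fun i' hi' => ih i' hi')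
      have h3 : ∀ i' < i - m, α (2 * m + i') = α i' := by
        intro i' hi'
        have e1 := ih (m + i') (by omega)
        have e2 := ih i' (by omega)
        have e3 : 2 * m + i' = m + (m + i') := by ring
        rw [e3, e1, e2]
        have := h.le i'
        omega
      have h4 := h.up (2 * m) (i - m) h3
      have e4 : 2 * m + (i - m) = m + i := by omega
      have h5 := ih (i - m) (by omega)
      have e5 : m + (i - m) = i := by omega
      rw [e5] at h5
      rw [e4] at h4
      have := h.le (i - m)
      omega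

theorem branch (h : Adm M α) (np : NP M α) {s : ℕ} (hs : 1 ≤ s) :
    ∃ j, (∀ i ≤ j, tau M α (s + i) = tau M α s + i) ∧
      (∀ i < j, α (s + i) = M - α (tau M α s + i)) ∧ M - α (tau M α s + j) < α (s + j) := by
  classical
  have hex : ∃ j, α (s + j) ≠ M - α (tau M α s + j) := by
    by_contra hcon
    push Not at hcon
    have hts := tau_lt h (s := s) (by omega)
    apply np (s - tau M α s) (by omega)
    intro i
    rcases Nat.lt_or_ge i (tau M α s) with h1 | h1
    · exact tau_match h s i h1
    · have h2 := hcon (i - tau M α s)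
      have e1 : s + (i - tau M α s) = s - tau M α s + i := by omega
      have e2 : tau M α s + (i - tau M α s) = i := by omega
      rwa [e1, e2] at h2
  have h1 : ∀ i < Nat.find hex, α (s + i) = M - α (tau M α s + i) := by
    intro i hi
    by_contra hc
    exact Nat.find_min hex hi hc
  have h2 : ∀ i ≤ Nat.find hex, tau M α (s + i) = tau M α s + i := by
    intro i
    induction i with
    | zero => intro _; rfl
    | succ i ih =>
      intro hi
      have h3 := ih (by omega)
      rw [← Nat.add_assoc, tau_succ, h3, if_pos (h1 i (by omega)), Nat.add_assoc]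
  refine ⟨Nat.find hex, h2, h1, ?_⟩
  have h3 := dead h (s + Nat.find hex)
  rw [h2 _ le_rfl] at h3
  have h4 := Nat.find_spec hex
  omega

/-- reachability -/
def Reach (M : ℕ) (α : ℕ → ℕ) (q q' : ℕ × ℕ) : Prop := ∃ z, run M α q z = some q'

theorem Reach.trans {q₁ q₂ q₃ : ℕ × ℕ} (h1 : Reach M α q₁ q₂) (h2 : Reach M α q₂ q₃) :
    Reach M α q₁ q₃ := by
  obtain ⟨z₁, h1⟩ := h1
  obtain ⟨z₂, h2⟩ := h2
  exact ⟨z₁ ++ z₂, run_append_of h1 h2⟩

theorem Reach.refl (q : ℕ × ℕ) : Reach M α q q := ⟨[], rfl⟩

theorem Reach.step {q q' : ℕ × ℕ} {a : ℕ} (h1 : step M α q a = some q') : Reach M α q q' :=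
  ⟨[a], run_single h1⟩

theorem Reach.swap {q q' : ℕ × ℕ} (h1 : Reach M α q q') : Reach M α q.swap q'.swap := by
  obtain ⟨z, hz⟩ := h1
  exact ⟨_, run_swap hz⟩

theorem reach_main (h : Adm M α) (e : Bool) (s i : ℕ) :
    Reach M α (st M α e s) (st M α e (s + i)) := by
  have key : Reach M α (st M α true s) (st M α true (s + i)) := by
    induction i with
    | zero => exact Reach.refl _
    | succ i ih => exact ih.trans (Reach.step (step_main h (s + i)))
  cases e with
  | true => exact key
  | false =>
    have := key.swap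
    rwa [st_swap, st_swap] at this

theorem reach_next (h : Adm M α) (np : NP M α) {s : ℕ} (hs : 1 ≤ s) (e : Bool) :
    ∃ j, Reach M α (st M α e s) (st M α e (s + j + 1)) ∧ tau M α (s + j + 1) = 0 ∧
      Reach M α (st M α e s) (st M α (!e) (tau M α s + j + 1)) ∧
      tau M α (tau M α s + j + 1) = 0 ∧ (∀ i < j, α (s + i) = M - α (tau M α s + i)) := by
  obtain ⟨j, h1, h2, h3⟩ := branch h np hs
  have h4 := h1 j le_rfl
  refine ⟨j, reach_main h e s (j + 1), ?_, ?_, ?_, h2⟩
  · rw [tau_succ, if_neg (by rw [h4]; omega)]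
  · have key : Reach M α (st M α true s) (st M α false (tau M α s + j + 1)) := by
      refine (reach_main h true s j).trans ?_
      have h5 : M - α (tau M α (s + j)) < α (s + j) := by rw [h4]; exact h3
      have h6 := step_flip h h5
      rw [h4] at h6
      exact Reach.step h6
    cases e with
    | true => exact key
    | false =>
      have := key.swap
      rwa [st_swap, st_swap] at this
  · have h5 : M - α (tau M α (s + j)) < α (s + j) := by rw [h4]; exact h3
    have h6 := tau_tau h h5
    rwa [h4] at h6

/-- the combinatorial structure of `α` after position `T` when no small vertex can be reached -/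
def Cl (M : ℕ) (α : ℕ → ℕ) (T : ℕ) : Prop :=
  ∀ s, T ≤ s → (tau M α s + 1 < T → α s = M - α (tau M α s)) ∧
    (tau M α s + 1 = T → α s ≤ M - α (tau M α s) + 1)

theorem cls (h : Adm M α) (np : NP M α) {R : ℕ × ℕ → Prop}
    (hR : ∀ q q', R q → Reach M α q q' → R q')
    (h0 : ¬ R (0, 0)) {T : ℕ} (hT : 1 ≤ T) {e₁ : Bool} (h1 : R (st M α e₁ T))
    (h2 : ∀ e s, 1 ≤ s → s < T → tau M α s = 0 → ¬ R (st M α e s)) :
    (∀ e s, T ≤ s → R (st M α e s)) ∧ Cl M α T ∧ ∀ e s, R (st M α e s) → T ≤ s := by
  -- a vertex in `R` is at least `T`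
  have hv : ∀ e s, tau M α s = 0 → R (st M α e s) → T ≤ s := by
    intro e s hs hRs
    rcases Nat.eq_zero_or_pos s with rfl | hs'
    · rw [st_zero] at hRs
      exact absurd hRs h0
    · by_contra hc
      exact h2 e s hs' (by omega) hs hRs
  have c : ∀ e s, R (st M α e s) → T ≤ s := by
    intro e s hRs
    by_contra hc
    rcases Nat.eq_zero_or_pos s with rfl | hs'
    · rw [st_zero] at hRs
      exact absurd hRs h0
    obtain ⟨j, a1, a2, a3, a4, a5⟩ := reach_next h np (s := s) hs' e
    have b1 := hv _ _ a4 (hR _ _ hRs a3)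
    have b2 := tau_lt h hs'
    apply np (s - tau M α s) (by omega)
    apply qle h (by omega)
    intro i hi
    rcases Nat.lt_or_ge i (tau M α s) with c1 | c1
    · exact tau_match h s i c1
    · have c2 := a5 (i - tau M α s) (by omega)
      have e1 : s + (i - tau M α s) = s - tau M α s + i := by omega
      have e2 : tau M α s + (i - tau M α s) = i := by omega
      rwa [e1, e2] at c2
  have hflip : ∀ e, R (st M α e T) → R (st M α (!e) T) := by
    intro e hRe
    obtain ⟨j, a1, a2, a3, a4, a5⟩ := reach_next h np (s := T) hT e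
    have b1 := hR _ _ hRe a3
    have b2 := hv _ _ a4 b1
    have b3 : tau M α T = 0 ∨ tau M α T ≠ 0 := em _
    -- offset of `T`
    have b4 := tau_lt h (s := T) (by omega)
    rcases Nat.lt_or_ge (tau M α T + j + 1) (T + 1) with b5 | b5
    · have b6 : tau M α T + j + 1 = T := by omega
      rwa [b6] at b1
    · exfalso
      apply np (T - tau M α T) (by omega)
      apply qle h (by omega)
      intro i hi
      rcases Nat.lt_or_ge i (tau M α T) with c1 | c1
      · exact tau_match h T i c1
      · have c2 := a5 (i - tau M α T) (by omega)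
        have e1 : T + (i - tau M α T) = T - tau M α T + i := by omega
        have e2 : tau M α T + (i - tau M α T) = i := by omega
        rwa [e1, e2] at c2
  have hT' : ∀ e, R (st M α e T) := by
    intro e
    by_cases he : e = e₁
    · rw [he]; exact h1
    · have : e = !e₁ := by cases e <;> cases e₁ <;> simp_all
      rw [this]; exact hflip _ h1
  have a : ∀ e s, T ≤ s → R (st M α e s) := by
    intro e s hs
    have h3 := hR _ _ (hT' e) (reach_main h e T (s - T))
    rwa [Nat.add_sub_cancel' hs] at h3
  refine ⟨a, ?_, c⟩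
  intro s hs
  have b1 := h.le s
  have b2 := h.le (tau M α s)
  have b3 := dead h s
  constructor
  · intro h3
    by_contra h4
    have h5 : M - α (tau M α s) < α s := by omega
    have h6 := hR _ _ (a true s hs) (Reach.step (step_flip h h5))
    exact absurd (c _ _ h6) (by omega)
  · intro h3
    by_contra h4
    apply h0
    refine hR _ _ (a true s hs) (Reach.step (a := M - α (tau M α s) + 1) ?_)
    rw [step_of (by simp only [st, if_true]; omega) (by omega) (by simp only [st, if_true]; omega)]
    simp only [st, if_true]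
    rw [if_neg (by omega), if_neg (by omega)]

/-! ### words without `α 0 ... α (T - 1)` and its reflection -/

/-- the periodic sequence with the block `reflected (α 0 ... α (T - 1))` plus one at the end -/
def perd (M : ℕ) (α : ℕ → ℕ) (T i : ℕ) : ℕ :=
  if i % T = T - 1 then M - α (T - 1) + 1 else M - α (i % T)

/-- `z` is a prefix of the periodic sequence or of its reflection -/
def PF (M : ℕ) (α : ℕ → ℕ) (T : ℕ) (e : Bool) (z : List ℕ) : Prop :=
  ∀ i (hi : i < z.length), z[i] = if e then perd M α T i else M - perd M α T i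

/-- no occurrence of the first `T` digits of `α` or of the reflection -/
def NF (M : ℕ) (α : ℕ → ℕ) (T : ℕ) (z : List ℕ) : Prop :=
  ¬ pre α T <:+: z ∧ ¬ bpre M α T <:+: z

theorem infix_refl {u z : List ℕ} (huz : u <:+: z) : refl M u <:+: refl M z := by
  obtain ⟨a, b, rfl⟩ := huz
  exact ⟨refl M a, refl M b, by rw [refl_append, refl_append]⟩

theorem nf_refl (h : Adm M α) {T : ℕ} {z : List ℕ} (hz : ∀ a ∈ z, a ≤ M) (hn : NF M α T z) :
    NF M α T (refl M z) := by
  constructor
  · intro hc
    apply hn.2
    have := infix_refl (M := M) hc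
    rwa [refl_refl hz, refl_pre] at this
  · intro hc
    apply hn.1
    have := infix_refl (M := M) hc
    rwa [refl_refl hz, refl_bpre h] at this

theorem pr (h : Adm M α) {T : ℕ} (hT : 1 ≤ T) (hCl : Cl M α T) :
    ∀ (z : List ℕ) (s t : ℕ) (q' : ℕ × ℕ), T ≤ s → tau M α s = t → t < T →
      run M α (s, t) z = some q' → ¬ bpre M α T <:+: bpre M α t ++ z →
      ∀ i (hi : i < z.length), z[i] = perd M α T (t + i) := by
  intro z
  induction z with
  | nil => intro s t q' _ _ _ _ _ i hi; simp at hi
  | cons a z ih =>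
    intro s t q' hs ht htT hrun hnf i hi
    obtain ⟨q₁, b1, b2⟩ := run_cons_some hrun
    obtain ⟨a1, a2, a3, a4, a5⟩ := step_some b1
    dsimp only at a1 a3 a4 a5
    have c1 := h.le s
    have c2 := h.le t
    obtain ⟨d1, d2⟩ := hCl s hs
    rw [ht] at d1 d2
    rcases Nat.lt_or_ge (t + 1) T with e1 | e1
    · have e2 := d1 e1
      have e3 : a = α s := by omega
      have e4 : M - a = α t := by omega
      rw [if_pos e3] at a4
      rw [if_pos e4] at a5
      have e5 : tau M α (s + 1) = t + 1 := by rw [tau_succ, ht, if_pos e2]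
      have e6 : q₁ = (s + 1, t + 1) := by ext <;> assumption
      rw [e6] at b2
      have e7 : bpre M α t ++ a :: z = bpre M α (t + 1) ++ z := by
        rw [bpre_succ, List.append_assoc, List.singleton_append]
        have : a = M - α t := by omega
        rw [this]
      rw [e7] at hnf
      have e8 := ih (s + 1) (t + 1) q' (by omega) e5 e1 b2 hnf
      rcases Nat.eq_zero_or_pos i with rfl | hi'
      · simp only [List.getElem_cons_zero, Nat.add_zero, perd]
        rw [Nat.mod_eq_of_lt htT, if_neg (by omega)]
        omega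
      · obtain ⟨i, rfl⟩ : ∃ k, i = k + 1 := ⟨i - 1, by omega⟩
        have e9 := e8 i (by simpa using hi)
        rw [List.getElem_cons_succ, e9]
        congr 1
        omega
    · have e2 : t + 1 = T := by omega
      have e3 := d2 e2
      have e4 : a ≠ M - α t := by
        intro hc
        apply hnf
        have : bpre M α T = bpre M α t ++ [a] := by rw [← e2, bpre_succ, hc]
        rw [this]
        exact ⟨[], z, by simp⟩
      have e5 : a = α s := by omega
      have e6 : M - a ≠ α t := by omega
      rw [if_pos e5] at a4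
      rw [if_neg e6] at a5
      have e7 : tau M α (s + 1) = 0 := by rw [tau_succ, ht, if_neg (by omega)]
      have e8 : q₁ = (s + 1, 0) := by ext <;> assumption
      rw [e8] at b2
      have hnf' : ¬ bpre M α T <:+: bpre M α 0 ++ z := by
        intro hc
        apply hnf
        have h1 : bpre M α 0 ++ z = z := by simp [bpre]
        rw [h1] at hc
        obtain ⟨x, y, hxy⟩ := hc
        refine ⟨bpre M α t ++ a :: x, y, ?_⟩
        rw [← hxy]; simp
      have e9 := ih (s + 1) 0 q' (by omega) e7 (by omega) b2 hnf'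
      rcases Nat.eq_zero_or_pos i with rfl | hi'
      · simp only [List.getElem_cons_zero, Nat.add_zero, perd]
        rw [Nat.mod_eq_of_lt htT, if_pos (by omega)]
        have : T - 1 = t := by omega
        rw [this]
        omega
      · obtain ⟨i, rfl⟩ : ∃ k, i = k + 1 := ⟨i - 1, by omega⟩
        have e10 := e9 i (by simpa using hi)
        rw [List.getElem_cons_succ, e10]
        unfold perd
        have e11 : (t + (i + 1)) % T = (0 + i) % T := by
          have : t + (i + 1) = i + T := by omega
          rw [this, Nat.add_mod_right, Nat.zero_add]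
        rw [e11]

theorem vertex_pos (h : Adm M α) {T : ℕ} (hT : 1 ≤ T) (hCl : Cl M α T) {s : ℕ} (hs : T ≤ s)
    (ht : tau M α s = 0) {z : List ℕ} {q' : ℕ × ℕ} (hrun : run M α (s, 0) z = some q')
    (hnf : NF M α T z) : PF M α T true z := by
  intro i hi
  have h1 := pr h hT hCl z s 0 q' hs ht (by omega) hrun (by simpa [bpre] using hnf.2) i hi
  simpa using h1

theorem pf_refl {T : ℕ} {e : Bool} {z : List ℕ} (hz : ∀ a ∈ z, a ≤ M)
    (hp : PF M α T e (refl M z)) (hle : ∀ i, perd M α T i ≤ M) : PF M α T (!e) z := by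
  intro i hi
  have h1 := hp i (by simpa [length_refl] using hi)
  unfold refl at h1
  rw [List.getElem_map] at h1
  have h2 := hz _ (List.getElem_mem hi)
  have h3 := hle i
  cases e
  · simp only [Bool.false_eq_true, if_false, Bool.not_false, if_true] at h1 ⊢
    omega
  · simp only [Bool.not_true, Bool.false_eq_true, if_false, if_true] at h1 ⊢
    omega

theorem perd_le (h : Adm M α) {T : ℕ} (hT : 1 ≤ T) (ht : tau M α T = 0) (i : ℕ) :
    perd M α T i ≤ M := by
  obtain ⟨T, rfl⟩ : ∃ k, T = k + 1 := ⟨T - 1, by omega⟩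
  have h1 := dead h T
  rw [tau_succ] at ht
  have h2 : α T ≠ M - α (tau M α T) := by
    intro hc
    rw [if_pos hc] at ht
    omega
  have h3 := h.le T
  unfold perd
  rw [Nat.add_sub_cancel]
  split_ifs
  · omega
  · omega

theorem vertex_neg (h : Adm M α) {T : ℕ} (hT : 1 ≤ T) (hTt : tau M α T = 0) (hCl : Cl M α T)
    {s : ℕ} (hs : T ≤ s) (ht : tau M α s = 0) {z : List ℕ} {q' : ℕ × ℕ}
    (hrun : run M α (0, s) z = some q') (hnf : NF M α T z) : PF M α T false z := by
  have hz := digit_le hrun
  have h1 := run_swap hrun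
  have h2 := vertex_pos h hT hCl hs ht h1 (nf_refl h hz hnf)
  exact pf_refl hz h2 (perd_le h hT hTt)

theorem nf_tail {T : ℕ} {a : ℕ} {z : List ℕ} (hn : NF M α T (a :: z)) : NF M α T z := by
  constructor
  · intro hc
    apply hn.1
    exact hc.trans (List.suffix_cons a z).isInfix
  · intro hc
    apply hn.2
    exact hc.trans (List.suffix_cons a z).isInfix

theorem sp (h : Adm M α) {T : ℕ} (hT : 1 ≤ T) (hTt : tau M α T = 0) (hCl : Cl M α T) :
    ∀ (z : List ℕ) (s t : ℕ) (q' : ℕ × ℕ), T ≤ s → tau M α s = t → t < T →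
      run M α (s, t) z = some q' → NF M α T z → ∃ m ≤ T - t, ∃ e, PF M α T e (z.drop m) := by
  intro z
  induction z with
  | nil =>
    intro s t q' _ _ _ _ _
    exact ⟨0, Nat.zero_le _, true, by intro i hi; simp at hi⟩
  | cons a z ih =>
    intro s t q' hs ht htT hrun hnf
    obtain ⟨q₁, b1, b2⟩ := run_cons_some hrun
    obtain ⟨a1, a2, a3, a4, a5⟩ := step_some b1
    dsimp only at a1 a3 a4 a5
    have c1 := h.le s
    have c2 := h.le t
    obtain ⟨d1, d2⟩ := hCl s hs
    rw [ht] at d1 d2
    have hnf' := nf_tail hnf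
    rcases Nat.lt_or_ge (t + 1) T with e1 | e1
    · have e2 := d1 e1
      have e3 : a = α s := by omega
      have e4 : M - a = α t := by omega
      rw [if_pos e3] at a4
      rw [if_pos e4] at a5
      have e5 : tau M α (s + 1) = t + 1 := by rw [tau_succ, ht, if_pos e2]
      have e6 : q₁ = (s + 1, t + 1) := by ext <;> assumption
      rw [e6] at b2
      obtain ⟨m, hm, e, he⟩ := ih (s + 1) (t + 1) q' (by omega) e5 e1 b2 hnf'
      exact ⟨m + 1, by omega, e, he⟩
    · have e2 : t + 1 = T := by omega
      have e3 := d2 e2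
      refine ⟨1, by omega, ?_⟩
      rw [List.drop_one, List.tail_cons]
      by_cases e4 : a = M - α t
      · have e5 : M - a = α t := by omega
        rw [if_pos e5, e2] at a5
        refine ⟨false, ?_⟩
        obtain ⟨r', f1, -, -⟩ := run_weak h (q := q₁) (r := (0, T)) (ov_zero _)
          (by rw [a5]; exact ov_refl _) b2
        exact vertex_neg h hT hTt hCl le_rfl hTt f1 hnf'
      · have e5 : a = α s := by omega
        have e6 : M - a ≠ α t := by omega
        rw [if_pos e5] at a4
        rw [if_neg e6] at a5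
        have e7 : tau M α (s + 1) = 0 := by rw [tau_succ, ht, if_neg (by omega)]
        have e8 : q₁ = (s + 1, 0) := by ext <;> assumption
        rw [e8] at b2
        exact ⟨true, vertex_pos h hT hCl (by omega) e7 b2 hnf'⟩

theorem refl_drop (m : ℕ) (z : List ℕ) : refl M (z.drop m) = (refl M z).drop m := by
  unfold refl; rw [List.map_drop]

theorem sp_all (h : Adm M α) {T : ℕ} (hT : 1 ≤ T) (hTt : tau M α T = 0) (hCl : Cl M α T) (s : ℕ) :
    ∀ (z : List ℕ) (q' : ℕ × ℕ), T ≤ s → run M α (st M α true s) z = some q' → NF M α T z →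
      ∃ m ≤ T, ∃ e, PF M α T e (z.drop m) := by
  induction s using Nat.strong_induction_on with
  | _ s ih =>
    intro z q' hs hrun hnf
    rcases Nat.lt_or_ge (tau M α s) T with h1 | h1
    · obtain ⟨m, hm, e, he⟩ := sp h hT hTt hCl z s (tau M α s) q' hs rfl h1 hrun hnf
      exact ⟨m, by omega, e, he⟩
    · have h2 := tau_lt h (s := s) (by omega)
      obtain ⟨r', f1, -, -⟩ := run_weak h (q := st M α true s) (r := st M α false (tau M α s))
        (by simp only [st, if_true, Bool.false_eq_true, if_false]; exact ov_tau h s)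
        (by simp only [st, if_true, Bool.false_eq_true, if_false]; exact ov_refl _) hrun
      have hz := digit_le hrun
      have f2 := run_swap f1
      rw [st_swap] at f2
      obtain ⟨m, hm, e, he⟩ := ih (tau M α s) h2 (refl M z) _ h1 f2 (nf_refl h hz hnf)
      refine ⟨m, hm, !e, pf_refl (fun a ha => hz a (List.mem_of_mem_drop ha)) ?_
        (perd_le h hT hTt)⟩
      rwa [refl_drop]

theorem str (h : Adm M α) {T : ℕ} (hT : 1 ≤ T) (hTt : tau M α T = 0) (hCl : Cl M α T) {e : Bool}
    {s : ℕ} (hs : T ≤ s) {z : List ℕ} {q' : ℕ × ℕ} (hrun : run M α (st M α e s) z = some q')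
    (hnf : NF M α T z) : ∃ m ≤ T, ∃ e, PF M α T e (z.drop m) := by
  cases e with
  | true => exact sp_all h hT hTt hCl s z q' hs hrun hnf
  | false =>
    have hz := digit_le hrun
    have f2 := run_swap hrun
    rw [st_swap] at f2
    obtain ⟨m, hm, e, he⟩ := sp_all h hT hTt hCl s (refl M z) _ hs f2 (nf_refl h hz hnf)
    refine ⟨m, hm, !e, pf_refl (fun a ha => hz a (List.mem_of_mem_drop ha)) ?_
      (perd_le h hT hTt)⟩
    rwa [refl_drop]

end Pool.Agent.H34.QS
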